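import Mathlib

set_option autoImplicit false

namespace Pool.Agent.H5SWeird

open Finset

/-- `t` is a subset sum of the weights `v` over the index set `D`. -/
def Rp {ι : Type} (v : ι → ℕ) (D : Finset ι) (t : ℕ) : Prop :=
  ∃ s ⊆ D, ∑ i ∈ s, v i = t

theorem Rp.mono {ι : Type} {v : ι → ℕ} {D D' : Finset ι} {t : ℕ} (h : Rp v D t) (hD : D ⊆ D') :
    Rp v D' t := by
  obtain ⟨s, hs, rfl⟩ := h
  exact ⟨s, hs.trans hD, rfl⟩

theorem Rp.symm {ι : Type} [DecidableEq ι] {v : ι → ℕ} {D : Finset ι} {t : ℕ} (h : Rp v D t) :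
    Rp v D (∑ i ∈ D, v i - t) := by
  obtain ⟨s, hs, rfl⟩ := h
  refine ⟨D \ s, sdiff_subset, ?_⟩
  have := Finset.sum_sdiff (f := v) hs
  omega

theorem Rp.transfer {ι κ : Type} [DecidableEq κ] {v : ι → ℕ} {w : κ → ℕ} {D : Finset ι}
    {D' : Finset κ} {t : ℕ}
    (h : Rp v D t) (g : ι → κ) (hg : Set.InjOn g D) (hm : ∀ i ∈ D, g i ∈ D')
    (hw : ∀ i ∈ D, w (g i) = v i) :
    Rp w D' t := by
  obtain ⟨s, hs, rfl⟩ := h
  refine ⟨s.image g, ?_, ?_⟩
  · intro x hx
    obtain ⟨i, hi, rfl⟩ := Finset.mem_image.1 hx
    exact hm i (hs hi)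
  · rw [Finset.sum_image (fun a ha b hb hab => hg (hs ha) (hs hb) hab)]
    exact Finset.sum_congr rfl (fun i hi => hw i (hs hi))

/-- Greedy extension of an interval of subset sums. -/
theorem chain {ι : Type} [DecidableEq ι] (v : ι → ℕ) (U V : Finset ι) (A B : ℕ)
    (hU : ∀ t, A ≤ t → t ≤ B → Rp v U t) (hUV : Disjoint U V)
    (hV : ∀ e ∈ V, v e + A ≤ B + 1 + ∑ i ∈ V.filter (fun i => v i < v e), v i) :
    ∀ t, A ≤ t → t ≤ B + ∑ i ∈ V, v i → Rp v (U ∪ V) t := by
  induction V using Finset.induction_on_max_value v with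
  | empty =>
    intro t h1 h2
    simpa using hU t h1 (by simpa using h2)
  | insert a s ha hmax ih =>
    have hUs : Disjoint U s := hUV.mono_right (Finset.subset_insert a s)
    have haU : a ∉ U := fun h => (Finset.disjoint_left.1 hUV h) (Finset.mem_insert_self a s)
    have ih' := ih hUs (by
      intro e he
      have := hV e (Finset.mem_insert_of_mem he)
      rwa [Finset.filter_insert, if_neg (not_lt.2 (hmax e he))] at this)
    have hva : v a + A ≤ B + 1 + ∑ i ∈ s, v i := by
      have h1 := hV a (Finset.mem_insert_self a s)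
      rw [Finset.filter_insert, if_neg (lt_irrefl _)] at h1
      have h2 : ∑ i ∈ s.filter (fun i => v i < v a), v i ≤ ∑ i ∈ s, v i :=
        Finset.sum_le_sum_of_subset (Finset.filter_subset _ _)
      omega
    intro t h1 h2
    rw [Finset.sum_insert ha] at h2
    by_cases hle : t ≤ B + ∑ i ∈ s, v i
    · exact (ih' t h1 hle).mono (Finset.union_subset_union_right (Finset.subset_insert a s))
    · obtain ⟨s', hs', hsum⟩ := ih' (t - v a) (by omega) (by omega)
      have has' : a ∉ s' := by
        intro h
        rcases Finset.mem_union.1 (hs' h) with h | h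
        · exact haU h
        · exact ha h
      refine ⟨insert a s', ?_, ?_⟩
      · intro x hx
        rcases Finset.mem_insert.1 hx with rfl | hx
        · simp
        · have := hs' hx
          simp only [Finset.mem_union, Finset.mem_insert] at this ⊢
          tauto
      · rw [Finset.sum_insert has', hsum]
        omega

/-- sum of proper divisors -/
def sp (m : ℕ) : ℕ := ∑ i ∈ m.properDivisors, i

/-- sum of divisors -/
def sg (m : ℕ) : ℕ := ∑ i ∈ m.divisors, i

theorem sg_eq (m : ℕ) : sg m = sp m + m := Nat.sum_divisors_eq_sum_properDivisors_add_self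

/-- All integers from `A` to `sp m - A` are sums of distinct proper divisors of `m`. -/
def Good (m A : ℕ) : Prop :=
  ∀ t, A ≤ t → t + A ≤ sp m → Rp (fun i : ℕ => i) m.properDivisors t

theorem sg_mul {F m : ℕ} (h : F.Coprime m) : sg (F * m) = sg F * sg m := by
  unfold sg
  exact Nat.Coprime.sum_divisors_mul h

theorem sp_mul {F m : ℕ} (h : F.Coprime m) : sp (F * m) = sg F * sp m + m * sp F := by
  have h1 := sg_mul h
  rw [sg_eq (F * m), sg_eq m] at h1
  have h2 := sg_eq F
  nlinarith

theorem mul_injOn {F m : ℕ} (h : F.Coprime m) :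
    Set.InjOn (fun x : ℕ × ℕ => x.1 * x.2) (F.divisors ×ˢ m.divisors : Finset (ℕ × ℕ)) := by
  rintro ⟨f, d⟩ hx ⟨f', d'⟩ hy hxy
  simp only [Finset.coe_product, Set.mem_prod, Finset.mem_coe, Nat.mem_divisors] at hx hy
  simp only at hxy
  have hf : (f * d).gcd F = f := by
    have hc : Nat.Coprime d F := (h.symm).coprime_dvd_left hx.2.1
    rw [Nat.Coprime.gcd_mul_right_cancel f hc]
    exact Nat.gcd_eq_left hx.1.1
  have hf' : (f' * d').gcd F = f' := by
    have hc : Nat.Coprime d' F := (h.symm).coprime_dvd_left hy.2.1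
    rw [Nat.Coprime.gcd_mul_right_cancel f' hc]
    exact Nat.gcd_eq_left hy.1.1
  have hff : f = f' := by rw [← hf, ← hf', hxy]
  subst hff
  have hfpos : 0 < f := Nat.pos_of_dvd_of_pos hx.1.1 (Nat.pos_of_ne_zero hx.1.2)
  have := Nat.eq_of_mul_eq_mul_left hfpos hxy
  rw [this]

/-- Chain property of the proper divisors of `F` with defect `lam`. -/
def Ch (F lam : ℕ) : Prop :=
  ∀ f ∈ F.properDivisors, f ≤ lam + ∑ i ∈ F.properDivisors.filter (fun i => i < f), i

/-- First step of combination: an interval from scaled copies of the interval. -/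
theorem scaled (m A b : ℕ) (Φ : Finset ℕ) (hA : 1 ≤ A)
    (hI : ∀ t, A ≤ t → t ≤ b → Rp (fun i : ℕ => i) m.properDivisors t)
    (hΦ : ∀ f ∈ Φ, 1 ≤ f ∧ (f + 1) * A ≤ b + 1) (h1 : 1 ∉ Φ) :
    ∀ t, A ≤ t → t ≤ (1 + ∑ f ∈ Φ, f) * b →
      Rp (fun x : ℕ × ℕ => x.1 * x.2) ((insert 1 Φ) ×ˢ m.properDivisors) t := by
  induction Φ using Finset.induction_on with
  | empty =>
    intro t h1 h2
    have := hI t h1 (by simpa using h2)
    refine this.transfer (fun i => (1, i)) ?_ ?_ ?_
    · intro a _ b _ hab
      simpa using hab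
    · intro i hi
      simpa using hi
    · intro i hi
      simp
  | insert f Φ hf ih =>
    have h1' : 1 ∉ Φ := fun h => h1 (Finset.mem_insert_of_mem h)
    have hf1 : f ≠ 1 := fun h => h1 (h ▸ Finset.mem_insert_self f Φ)
    have ih' := ih (fun g hg => hΦ g (Finset.mem_insert_of_mem hg)) h1'
    obtain ⟨hfpos, hfA⟩ := hΦ f (Finset.mem_insert_self f Φ)
    set B := (1 + ∑ f ∈ Φ, f) * b with hB
    have hbB : b ≤ B := by
      rw [hB]; nlinarith [Nat.zero_le ((∑ f ∈ Φ, f) * b)]
    intro t ht1 ht2
    have ht2' : t ≤ B + f * b := by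
      rw [Finset.sum_insert hf] at ht2
      rw [hB]
      nlinarith
    have hsub : (insert 1 Φ) ×ˢ m.properDivisors ⊆ (insert 1 (insert f Φ)) ×ˢ m.properDivisors := by
      apply Finset.product_subset_product_left
      intro x hx
      simp only [Finset.mem_insert] at hx ⊢
      tauto
    by_cases hle : t ≤ B
    · exact (ih' t ht1 hle).mono hsub
    · push Not at hle
      -- choose v
      obtain ⟨u, w, hu1, hu2, hw1, hw2, huw⟩ : ∃ u w, A ≤ u ∧ u ≤ B ∧ A ≤ w ∧ w ≤ b ∧
          t = u + f * w := by
        by_cases hc : t ≤ B + f * A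
        · refine ⟨t - f * A, A, ?_, by omega, le_rfl, ?_, ?_⟩
          · have : f * A + A ≤ t := by nlinarith
            omega
          · nlinarith
          · have : f * A ≤ t := by nlinarith
            omega
        · push Not at hc
          -- w = ceil ((t - B)/f)
          set w := (t - B + f - 1) / f with hw
          have hw1 : f * w ≤ t - B + f - 1 := Nat.mul_div_le _ _
          have hw2 : t - B + f - 1 < f * w + f := by
            have := Nat.lt_mul_div_succ (t - B + f - 1) hfpos
            rw [← hw] at this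
            nlinarith
          have hwA : A ≤ w := by
            by_contra hcon
            push Not at hcon
            have : f * (w + 1) ≤ f * A := Nat.mul_le_mul_left _ hcon
            have h3 : f * (w + 1) = f * w + f := by ring
            omega
          have hwb : w ≤ b := by
            by_contra hcon
            push Not at hcon
            have : f * (b + 1) ≤ f * w := Nat.mul_le_mul_left _ hcon
            have h3 : f * (b + 1) = f * b + f := by ring
            omega
          have hfB : A + f ≤ B + 1 := by nlinarith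
          refine ⟨t - f * w, w, ?_, ?_, hwA, hwb, ?_⟩
          · omega
          · omega
          · omega
      obtain ⟨s1, hs1, hsum1⟩ := ih' u hu1 hu2
      obtain ⟨s2, hs2, hsum2⟩ := hI w hw1 hw2
      refine ⟨s1 ∪ s2.image (fun d => (f, d)), ?_, ?_⟩
      · apply Finset.union_subset (hs1.trans hsub)
        intro x hx
        obtain ⟨d, hd, rfl⟩ := Finset.mem_image.1 hx
        simp only [Finset.mem_product, Finset.mem_insert, true_or, or_true, true_and]
        exact hs2 hd
      · rw [Finset.sum_union, hsum1, Finset.sum_image, ← Finset.mul_sum, hsum2, ← huw]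
        · intro a _ b _ hab
          simpa using hab
        · rw [Finset.disjoint_left]
          intro x hx hx'
          obtain ⟨d, hd, rfl⟩ := Finset.mem_image.1 hx'
          have := (Finset.mem_product.1 (hs1 hx)).1
          simp only [Finset.mem_insert] at this
          rcases this with h | h
          · exact hf1 h
          · exact hf h

/-- Combination lemma. -/
theorem combine (F m A lam : ℕ) (hF : F ≠ 0) (hm : m ≠ 0) (hcop : F.Coprime m) (hA : 1 ≤ A)
    (hG : Good m A) (hC : Ch F lam) (h1 : (F + 2) * A ≤ sp m + 1)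
    (h2 : lam * m + A ≤ sg F * (sp m - A) + 1) : Good (F * m) A := by
  have hFpos : 0 < F := Nat.pos_of_ne_zero hF
  have hmpos : 0 < m := Nat.pos_of_ne_zero hm
  set b := sp m - A with hb
  have hAs : A ≤ sp m := by nlinarith
  have hbs : b + A = sp m := by omega
  set v : ℕ × ℕ → ℕ := fun x => x.1 * x.2 with hv
  set U : Finset (ℕ × ℕ) := F.divisors ×ˢ m.properDivisors with hU
  set V : Finset (ℕ × ℕ) := F.properDivisors.image (fun f => (f, m)) with hV
  have hinj : Set.InjOn (fun f : ℕ => (f, m)) (F.properDivisors : Set ℕ) := by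
    intro a _ b _ hab
    simpa using hab
  have hI : ∀ t, A ≤ t → t ≤ b → Rp (fun i : ℕ => i) m.properDivisors t := by
    intro t ht1 ht2
    exact hG t ht1 (by omega)
  have hUint : ∀ t, A ≤ t → t ≤ sg F * b → Rp v U t := by
    have hins : F.divisors = insert 1 (F.divisors.erase 1) := by
      rw [Finset.insert_erase]
      exact Nat.one_mem_divisors.2 hF
    have hsum : sg F = 1 + ∑ f ∈ F.divisors.erase 1, f := by
      unfold sg
      rw [← Finset.add_sum_erase _ _ (Nat.one_mem_divisors.2 hF)]
    have := scaled m A b (F.divisors.erase 1) hA hI (by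
      intro f hf
      have hfd := Finset.mem_of_mem_erase hf
      have hfpos : 0 < f := Nat.pos_of_mem_divisors hfd
      have hfF : f ≤ F := Nat.divisor_le hfd
      refine ⟨hfpos, ?_⟩
      have : (f + 1) * A ≤ (F + 1) * A := Nat.mul_le_mul_right _ (by omega)
      nlinarith) (Finset.notMem_erase 1 _)
    rw [← hsum, ← hins] at this
    exact this
  have hdisj : Disjoint U V := by
    rw [Finset.disjoint_left]
    intro x hx hx'
    obtain ⟨f, hf, rfl⟩ := Finset.mem_image.1 hx'
    have := (Finset.mem_product.1 hx).2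
    simp at this
  have hVsum : ∑ x ∈ V, v x = m * sp F := by
    rw [hV, Finset.sum_image hinj, sp, Finset.mul_sum]
    exact Finset.sum_congr rfl (fun i _ => by simp [hv, mul_comm])
  have hchain := chain v U V A (sg F * b) hUint hdisj (by
    intro e he
    obtain ⟨f, hf, rfl⟩ := Finset.mem_image.1 he
    have hc := hC f hf
    have hfil : ∑ i ∈ V.filter (fun i => v i < v (f, m)), v i
        = m * ∑ i ∈ F.properDivisors.filter (fun i => i < f), i := by
      rw [hV, Finset.filter_image, Finset.sum_image (hinj.mono (by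
        intro x hx; simp only [Finset.coe_filter, Set.mem_ofPred_eq] at hx; exact hx.1))]
      rw [Finset.mul_sum]
      have hfe : F.properDivisors.filter (fun a => v (a, m) < v (f, m))
          = F.properDivisors.filter (fun i => i < f) := by
        apply Finset.filter_congr
        intro x hx
        simp only [hv]
        exact Nat.mul_lt_mul_right hmpos
      rw [hfe]
      exact Finset.sum_congr rfl (fun i _ => by simp [hv, mul_comm])
    rw [hfil]
    simp only [hv]
    have : f * m ≤ lam * m + m * ∑ i ∈ F.properDivisors.filter (fun i => i < f), i := by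
      nlinarith
    omega)
  -- now transfer
  have hUVsub : ∀ x ∈ U ∪ V, v x ∈ (F * m).properDivisors := by
    intro x hx
    rcases Finset.mem_union.1 hx with h | h
    · have h3 := Finset.mem_product.1 h
      obtain ⟨h4, h5⟩ := Nat.mem_properDivisors.1 h3.2
      have h6 := Nat.mem_divisors.1 h3.1
      rw [Nat.mem_properDivisors]
      refine ⟨Nat.mul_dvd_mul h6.1 h4, ?_⟩
      have : x.1 ≤ F := Nat.le_of_dvd hFpos h6.1
      calc x.1 * x.2 ≤ F * x.2 := Nat.mul_le_mul_right _ this
        _ < F * m := Nat.mul_lt_mul_of_pos_left h5 hFpos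
    · obtain ⟨f, hf, rfl⟩ := Finset.mem_image.1 h
      obtain ⟨h4, h5⟩ := Nat.mem_properDivisors.1 hf
      rw [Nat.mem_properDivisors]
      refine ⟨Nat.mul_dvd_mul h4 dvd_rfl, ?_⟩
      exact Nat.mul_lt_mul_of_pos_right h5 hmpos
  have hUVinj : Set.InjOn v (U ∪ V : Finset (ℕ × ℕ)) := by
    apply (mul_injOn hcop).mono
    intro x hx
    simp only [Finset.coe_union, Set.mem_union, Finset.mem_coe] at hx
    simp only [Finset.coe_product, Set.mem_prod, Finset.mem_coe]
    rcases hx with h | h
    · have h3 := Finset.mem_product.1 h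
      exact ⟨h3.1, Nat.properDivisors_subset_divisors h3.2⟩
    · obtain ⟨f, hf, rfl⟩ := Finset.mem_image.1 h
      exact ⟨Nat.properDivisors_subset_divisors hf, Nat.mem_divisors_self m hm⟩
  have hrep : ∀ t, A ≤ t → t ≤ sg F * b + m * sp F →
      Rp (fun i : ℕ => i) (F * m).properDivisors t := by
    intro t ht1 ht2
    exact (hchain t ht1 (by rw [hVsum]; exact ht2)).transfer v hUVinj hUVsub (fun i _ => rfl)
  have hsp := sp_mul hcop
  have hsgF : 1 ≤ sg F := by rw [sg_eq]; omega
  intro t ht1 ht2
  by_cases hle : t ≤ sg F * b + m * sp F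
  · exact hrep t ht1 hle
  · push Not at hle
    have hkey : sp (F * m) = sg F * b + sg F * A + m * sp F := by
      rw [hsp, ← hbs]; ring
    have h3A : sg F * (3 * A) ≤ sg F * (b + A + 1) := by
      apply Nat.mul_le_mul_left
      rw [hbs]
      nlinarith
    have h4 : sg F * (b + A + 1) = sg F * b + sg F * A + sg F := by ring
    have h5 : sg F * (3 * A) = 3 * (sg F * A) := by ring
    have h6 : sg F ≤ sg F * A := Nat.le_mul_of_pos_right _ hA
    have hr := hrep (sp (F * m) - t) (by omega) (by omega)
    have hr2 := hr.symm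
    have : sp (F * m) - (sp (F * m) - t) = t := by omega
    rw [show ∑ i ∈ (F * m).properDivisors, i = sp (F * m) from rfl, this] at hr2
    exact hr2

/-- Growth lemma: multiply by a new prime. -/
theorem grow (p m A : ℕ) (hp : p.Prime) (hm : m ≠ 0) (hpm : ¬ p ∣ m) (hA : 1 ≤ A)
    (hG : Good m A) (h1 : (p + 2) * A ≤ sp m + 1) (h2 : m ≤ p * sp m) : Good (p * m) A := by
  apply combine p m A 1 hp.ne_zero hm ((Nat.Prime.coprime_iff_not_dvd hp).2 hpm) hA hG ?_ h1 ?_
  · intro f hf
    rw [Nat.Prime.properDivisors hp] at hf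
    simp only [Finset.mem_singleton] at hf
    omega
  · have hsg : sg p = p + 1 := by
      unfold sg
      rw [Nat.Prime.sum_divisors hp]
    rw [hsg]
    have hAs : A ≤ sp m := by nlinarith
    obtain ⟨b, hb⟩ := Nat.exists_eq_add_of_le hAs
    have : sp m - A = b := by omega
    rw [this]
    rw [hb] at h1 h2
    nlinarith

/-- Good implies chain property. -/
theorem chain_of_good (m A : ℕ) (hA : 1 ≤ A) (hG : Good m A)
    (h : ∀ f ∈ m.properDivisors, f + A ≤ sp m + 1) : Ch m A := by
  intro f hf
  by_cases hfA : f ≤ A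
  · omega
  · push Not at hfA
    obtain ⟨s, hs, hsum⟩ := hG (f - 1) (by omega) (by have := h f hf; omega)
    have hsum' : ∑ i ∈ s, i = f - 1 := hsum
    have hle : ∑ i ∈ s, i ≤ ∑ i ∈ m.properDivisors.filter (fun i => i < f), i := by
      apply Finset.sum_le_sum_of_subset
      intro x hx
      rw [Finset.mem_filter]
      refine ⟨hs hx, ?_⟩
      have hx1 : x ≤ ∑ i ∈ s, i :=
        Finset.single_le_sum (f := fun i : ℕ => i) (fun i _ => Nat.zero_le i) hx
      rw [hsum'] at hx1
      omega
    rw [hsum'] at hle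
    omega

end Pool.Agent.H5SWeird
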