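import Mathlib
import Pool.Agent.H5S_Weird.Core

set_option autoImplicit false

namespace Pool.Agent.H5SWeird

open Finset

/-- Subset sums of residues prime to `D`. -/
theorem residues (D : ℕ) [NeZero D] (Q : Finset ℕ) (hQ : ∀ q ∈ Q, q.Coprime D) :
    Q.card + 1 ≤ (Q.powerset.image (fun s => ((∑ i ∈ s, i : ℕ) : ZMod D))).card ∨
      (Q.powerset.image (fun s => ((∑ i ∈ s, i : ℕ) : ZMod D))) = univ := by
  induction Q using Finset.induction_on with
  | empty =>
    left
    simp
  | insert x Q hx ih =>
    have ih' := ih (fun q hq => hQ q (Finset.mem_insert_of_mem hq))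
    set T := Q.powerset.image (fun s => ((∑ i ∈ s, i : ℕ) : ZMod D)) with hT
    set T' := (insert x Q).powerset.image (fun s => ((∑ i ∈ s, i : ℕ) : ZMod D)) with hT'
    have hsub : T ⊆ T' := by
      apply Finset.image_subset_image
      exact Finset.powerset_mono.2 (Finset.subset_insert x Q)
    have hadd : ∀ c ∈ T, c + (x : ZMod D) ∈ T' := by
      intro c hc
      obtain ⟨s, hs, rfl⟩ := Finset.mem_image.1 hc
      have hs' := Finset.mem_powerset.1 hs
      refine Finset.mem_image.2 ⟨insert x s, ?_, ?_⟩
      · exact Finset.mem_powerset.2 (Finset.insert_subset_insert x hs')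
      · rw [Finset.sum_insert (fun h => hx (hs' h))]
        push_cast
        ring
    rcases ih' with h | h
    · by_cases hcard : (insert x Q).card + 1 ≤ T'.card
      · left; exact hcard
      · right
        rw [Finset.card_insert_of_notMem hx] at hcard
        have hle : T'.card ≤ T.card := by omega
        have heq : T = T' := Finset.eq_of_subset_of_card_le hsub hle
        have hcl : ∀ n : ℕ, ((n : ZMod D) * x) ∈ T := by
          intro n
          induction n with
          | zero =>
            refine Finset.mem_image.2 ⟨∅, by simp, by simp⟩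
          | succ n ihn =>
            have := hadd _ ihn
            rw [← heq] at this
            have h2 : ((n + 1 : ℕ) : ZMod D) * x = (n : ZMod D) * x + x := by
              push_cast; ring
            rw [h2]; exact this
        rw [← heq]
        rw [Finset.eq_univ_iff_forall]
        intro c
        have hu : IsUnit (x : ZMod D) := by
          rw [ZMod.isUnit_iff_coprime]
          exact hQ x (Finset.mem_insert_self x Q)
        obtain ⟨y, hy⟩ := hu.exists_left_inv
        have h3 := hcl (c * y).val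
        rw [ZMod.natCast_zmod_val] at h3
        rwa [mul_assoc, hy, mul_one] at h3
    · right
      rw [Finset.eq_univ_iff_forall]
      intro c
      exact hsub (h ▸ Finset.mem_univ c)

theorem residues' (D : ℕ) [NeZero D] (Q : Finset ℕ) (hQ : ∀ q ∈ Q, q.Coprime D)
    (hc : D ≤ Q.card + 1) (c : ZMod D) :
    ∃ s ⊆ Q, ((∑ i ∈ s, i : ℕ) : ZMod D) = c := by
  have h := residues D Q hQ
  have huniv : (Q.powerset.image (fun s => ((∑ i ∈ s, i : ℕ) : ZMod D))) = univ := by
    rcases h with h | h
    · apply Finset.eq_univ_of_card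
      apply le_antisymm
      · exact Finset.card_le_univ _
      · rw [ZMod.card]; omega
    · exact h
  have := Finset.mem_univ c
  rw [← huniv] at this
  obtain ⟨s, hs, hsc⟩ := Finset.mem_image.1 this
  exact ⟨s, Finset.mem_powerset.1 hs, hsc⟩

/-- Many disjoint pairs with a common small difference. -/
theorem extract (S : Finset ℕ) (M G R : ℕ) (hG : 1 ≤ G) (hS : ∀ x ∈ S, x < M)
    (hcard : M / G + 1 + G * (2 * R) ≤ S.card) :
    ∃ D, 1 ≤ D ∧ D ≤ G ∧ ∃ Y ⊆ S, Y.card = R ∧ (∀ y ∈ Y, y + D ∈ S) ∧ (∀ y ∈ Y, y + D ∉ Y) := by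
  -- elements with a successor within distance G
  set S' := S.filter (fun x => ∃ y ∈ S, x < y ∧ y < x + G) with hS'
  have h1 : (S \ S').card ≤ M / G + 1 := by
    have hinj : Set.InjOn (fun x => x / G) (S \ S' : Finset ℕ) := by
      have key : ∀ x ∈ S \ S', ∀ y ∈ S, x / G = y / G → ¬ x < y := by
        intro x hx y hy hxy hlt
        rw [Finset.mem_sdiff, hS', Finset.mem_filter, not_and] at hx
        apply hx.2 hx.1
        refine ⟨y, hy, hlt, ?_⟩
        have hx1 := Nat.div_add_mod x G
        have hy1 := Nat.div_add_mod y G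
        have hx2 := Nat.mod_lt x (by omega : G > 0)
        have hy2 := Nat.mod_lt y (by omega : G > 0)
        rw [hxy] at hx1
        omega
      intro x hx y hy hxy
      have hx' := Finset.mem_coe.1 hx
      have hy' := Finset.mem_coe.1 hy
      simp only at hxy
      by_contra hne
      rcases Nat.lt_or_gt_of_ne hne with h | h
      · exact key x hx' y (Finset.mem_sdiff.1 hy').1 hxy h
      · exact key y hy' x (Finset.mem_sdiff.1 hx').1 hxy.symm h
    rw [← Finset.card_image_of_injOn hinj]
    calc ((S \ S').image (fun x => x / G)).card ≤ (Finset.range (M / G + 1)).card := by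
          apply Finset.card_le_card
          intro z hz
          obtain ⟨x, hx, rfl⟩ := Finset.mem_image.1 hz
          rw [Finset.mem_range]
          have := hS x (Finset.mem_sdiff.1 hx).1
          have := Nat.div_le_div_right (c := G) this.le
          omega
      _ = M / G + 1 := Finset.card_range _
  have h2 : G * (2 * R) ≤ S'.card := by
    have := Finset.card_sdiff_add_card_eq_card (Finset.filter_subset (fun x => ∃ y ∈ S, x < y ∧ y < x + G) S)
    rw [← hS'] at this
    omega
  -- pigeonhole over D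
  have h3 : ∃ D ∈ Finset.Icc 1 G, 2 * R ≤ (S.filter (fun x => x + D ∈ S)).card := by
    by_contra hcon
    push Not at hcon
    have hsub : S' ⊆ (Finset.Icc 1 G).biUnion (fun D => S.filter (fun x => x + D ∈ S)) := by
      intro x hx
      rw [hS', Finset.mem_filter] at hx
      obtain ⟨hxS, y, hy, hlt, hlt2⟩ := hx
      rw [Finset.mem_biUnion]
      refine ⟨y - x, ?_, ?_⟩
      · rw [Finset.mem_Icc]; omega
      · rw [Finset.mem_filter]
        refine ⟨hxS, ?_⟩
        rwa [show x + (y - x) = y by omega]
    have hR : 0 < 2 * R := by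
      have := hcon 1 (by rw [Finset.mem_Icc]; omega)
      omega
    have h4 : S'.card < G * (2 * R) := by
      calc S'.card ≤ _ := Finset.card_le_card hsub
        _ ≤ (Finset.Icc 1 G).card * (2 * R - 1) := by
            apply Finset.card_biUnion_le_card_mul
            intro D hD
            have := hcon D hD
            omega
        _ = G * (2 * R - 1) := by rw [Nat.card_Icc]; simp
        _ < G * (2 * R) := Nat.mul_lt_mul_of_pos_left (by omega) (by omega)
    omega
  obtain ⟨D, hD, hDcard⟩ := h3
  rw [Finset.mem_Icc] at hD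
  set Z := S.filter (fun x => x + D ∈ S) with hZ
  -- parity classes
  have h5 := Finset.card_filter_add_card_filter_not (s := Z) (fun x => Even (x / D))
  have hdiv : ∀ y : ℕ, (y + D) / D = y / D + 1 := fun y => Nat.add_div_right y (by omega)
  obtain ⟨Y0, hY0sub, hY0card, hY0⟩ : ∃ Y0 ⊆ Z, R ≤ Y0.card ∧ ∀ y ∈ Y0, y + D ∉ Y0 := by
    by_cases hc : R ≤ (Z.filter (fun x => Even (x / D))).card
    · refine ⟨_, Finset.filter_subset _ _, hc, ?_⟩
      intro y hy hy'
      rw [Finset.mem_filter] at hy hy'
      rw [hdiv] at hy'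
      exact (Nat.even_add_one.1 hy'.2) hy.2
    · refine ⟨Z.filter (fun x => ¬ Even (x / D)), Finset.filter_subset _ _, by omega, ?_⟩
      intro y hy hy'
      rw [Finset.mem_filter] at hy hy'
      rw [hdiv] at hy'
      exact hy'.2 (Nat.even_add_one.2 hy.2)
  obtain ⟨Y, hY, hYc⟩ := Finset.exists_subset_card_eq hY0card
  refine ⟨D, hD.1, hD.2, Y, ?_, hYc, ?_, ?_⟩
  · intro y hy
    exact (Finset.mem_filter.1 (hY0sub (hY hy))).1
  · intro y hy
    exact (Finset.mem_filter.1 (hY0sub (hY hy))).2
  · intro y hy hy'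
    exact hY0 y (hY hy) (hY hy')

/-- The interval of subset sums from pairs with common difference and residues. -/
theorem interval (Q Y : Finset ℕ) (D X : ℕ) (hD : 1 ≤ D) (hQ : ∀ q ∈ Q, q.Coprime D)
    (hQc : D ≤ Q.card + 1) (hQX : ∀ q ∈ Q, q ≤ 2 * X)
    (hYD : ∀ y ∈ Y, y + D ∉ Y) (hQY : ∀ q ∈ Q, q ∉ Y ∧ q ∉ Y.image (fun y => y + D)) :
    ∀ t, ∑ y ∈ Y, y + Q.card * (2 * X) ≤ t → t ≤ ∑ y ∈ Y, y + Y.card * D →
      Rp (fun i : ℕ => i) (Q ∪ (Y ∪ Y.image (fun y => y + D))) t := by
  intro t ht1 ht2
  have : NeZero D := ⟨by omega⟩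
  obtain ⟨s, hs, hsc⟩ := residues' D Q hQ hQc ((t - ∑ y ∈ Y, y : ℕ) : ZMod D)
  have hsle : ∑ i ∈ s, i ≤ Q.card * (2 * X) := by
    calc ∑ i ∈ s, i ≤ ∑ i ∈ Q, i := Finset.sum_le_sum_of_subset hs
      _ ≤ Q.card • (2 * X) := Finset.sum_le_card_nsmul _ _ _ hQX
      _ = _ := by simp
  have hdvd : D ∣ (t - ∑ y ∈ Y, y) - ∑ i ∈ s, i := by
    rw [← ZMod.natCast_eq_zero_iff, Nat.cast_sub (by omega), hsc, sub_self]
  obtain ⟨n, hn⟩ := hdvd
  have hnle : n ≤ Y.card := by
    by_contra hcon
    push Not at hcon
    have : D * (Y.card + 1) ≤ D * n := Nat.mul_le_mul_left _ hcon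
    have h2 : D * (Y.card + 1) = Y.card * D + D := by ring
    omega
  obtain ⟨Y', hY', hY'c⟩ := Finset.exists_subset_card_eq hnle
  have hinj : Set.InjOn (fun y => y + D) (Y' : Set ℕ) := by
    intro a _ b _ hab
    simpa using hab
  have hdisj1 : Disjoint (Y \ Y') (Y'.image (fun y => y + D)) := by
    rw [Finset.disjoint_left]
    intro x hx hx'
    obtain ⟨y, hy, rfl⟩ := Finset.mem_image.1 hx'
    exact hYD y (hY' hy) (Finset.mem_sdiff.1 hx).1
  have hdisj2 : Disjoint s ((Y \ Y') ∪ Y'.image (fun y => y + D)) := by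
    rw [Finset.disjoint_left]
    intro x hx hx'
    have h1 := hQY x (hs hx)
    rcases Finset.mem_union.1 hx' with h | h
    · exact h1.1 (Finset.mem_sdiff.1 h).1
    · exact h1.2 (Finset.image_subset_image hY' h)
  refine ⟨s ∪ ((Y \ Y') ∪ Y'.image (fun y => y + D)), ?_, ?_⟩
  · apply Finset.union_subset_union hs
    apply Finset.union_subset_union Finset.sdiff_subset
    exact Finset.image_subset_image hY'
  · rw [Finset.sum_union hdisj2, Finset.sum_union hdisj1, Finset.sum_image hinj,
      Finset.sum_add_distrib]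
    have h3 := Finset.sum_sdiff (f := fun y : ℕ => y) hY'
    simp only [Finset.sum_const, hY'c, smul_eq_mul] at h3 ⊢
    have h4 : n * D = D * n := mul_comm _ _
    omega

end Pool.Agent.H5SWeird
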