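import Mathlib
import Pool.Agent.H5S_Weird.Base

set_option autoImplicit false

namespace Pool.Agent.H5SWeird

open Finset

/-- product of a finite set -/
def pr (J : Finset ℕ) : ℕ := ∏ p ∈ J, p

theorem pr_pos {P J : Finset ℕ} (hP : ∀ p ∈ P, p.Prime) (hJ : J ⊆ P) : 0 < pr J :=
  Finset.prod_pos (fun p hp => (hP p (hJ hp)).pos)

theorem primeFactors_pr {P J : Finset ℕ} (hP : ∀ p ∈ P, p.Prime) (hJ : J ⊆ P) :
    (pr J).primeFactors = J :=
  Nat.primeFactors_prod (fun p hp => hP p (hJ hp))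

theorem pr_injOn {P : Finset ℕ} (hP : ∀ p ∈ P, p.Prime) :
    Set.InjOn pr {J : Finset ℕ | J ⊆ P} := by
  intro J hJ J' hJ' h
  rw [← primeFactors_pr hP hJ, ← primeFactors_pr hP hJ', h]

theorem pr_lower {J : Finset ℕ} {X : ℕ} (h : ∀ p ∈ J, X ≤ p) : X ^ J.card ≤ pr J := by
  unfold pr
  exact Finset.pow_card_le_prod J (fun p => p) X h

theorem pr_upper {J : Finset ℕ} {X : ℕ} (h : ∀ p ∈ J, p ≤ X) : pr J ≤ X ^ J.card := by
  unfold pr
  exact Finset.prod_le_pow_card J (fun p => p) X h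

theorem pr_union {J K : Finset ℕ} (h : Disjoint J K) : pr (J ∪ K) = pr J * pr K := by
  unfold pr
  exact Finset.prod_union h

theorem pr_sdiff {J K : Finset ℕ} (h : K ⊆ J) : pr (J \ K) * pr K = pr J := by
  unfold pr
  exact Finset.prod_sdiff h

theorem choose3 (k : ℕ) (hk : 6 ≤ k) : k ^ 3 ≤ 12 * k.choose 3 := by
  have h := Nat.descFactorial_eq_factorial_mul_choose k 3
  have h3 : Nat.factorial 3 = 6 := rfl
  rw [h3] at h
  simp only [Nat.descFactorial, Nat.sub_zero, mul_one] at h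
  obtain ⟨l, rfl⟩ := Nat.exists_eq_add_of_le hk
  have e1 : 6 + l - 2 = 4 + l := by omega
  have e2 : 6 + l - 1 = 5 + l := by omega
  rw [e1, e2] at h
  nlinarith

theorem choose2 (k : ℕ) (hk : 2 ≤ k) : k ^ 2 ≤ 4 * k.choose 2 := by
  have h := Nat.descFactorial_eq_factorial_mul_choose k 2
  have h3 : Nat.factorial 2 = 2 := rfl
  rw [h3] at h
  simp only [Nat.descFactorial, Nat.sub_zero, mul_one] at h
  obtain ⟨l, rfl⟩ := Nat.exists_eq_add_of_le hk
  have e1 : 2 + l - 1 = 1 + l := by omega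
  rw [e1] at h
  nlinarith

/-- lower bound for the sum over a family of subsets -/
theorem fam {P : Finset ℕ} (hP : ∀ p ∈ P, p.Prime) (U : Finset ℕ) (e : ℕ) (he : e < pr P)
    (F : Finset (Finset ℕ)) (hF : ∀ J ∈ F, J ⊆ P ∧ pr J < e ∧ pr J ∉ U) (c : ℕ)
    (hc : ∀ J ∈ F, c ≤ pr J) :
    F.card * c ≤ ∑ i ∈ ((pr P).properDivisors \ U).filter (fun i => i < e), i := by
  have hinj : Set.InjOn pr (F : Set (Finset ℕ)) :=
    (pr_injOn hP).mono (fun J hJ => (hF J hJ).1)
  calc F.card * c = F.card • c := by simp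
    _ ≤ ∑ J ∈ F, pr J := Finset.card_nsmul_le_sum _ _ _ hc
    _ = ∑ i ∈ F.image pr, i := by rw [Finset.sum_image hinj]
    _ ≤ _ := by
      apply Finset.sum_le_sum_of_subset
      intro x hx
      obtain ⟨J, hJ, rfl⟩ := Finset.mem_image.1 hx
      obtain ⟨h1, h2, h3⟩ := hF J hJ
      rw [Finset.mem_filter, Finset.mem_sdiff, Nat.mem_properDivisors]
      refine ⟨⟨⟨?_, by omega⟩, h3⟩, h2⟩
      exact Finset.prod_dvd_prod_of_subset J P (fun p => p) h1


theorem numer (X w k : ℕ) (hw : 1 ≤ w) (hk : X ≤ k * w) (hX : 100000 * w ^ 6 ≤ X) (hk6 : 6 ≤ k) :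
    8 * X ^ 3 / (400 * w ^ 3) + 1 + 4000 * w ^ 3 * X ^ 2 ≤ k.choose 3 := by
  have hch := choose3 k hk6
  set N := k.choose 3
  set W := w ^ 3 with hW
  set a := 8 * X ^ 3 / (400 * W) with ha
  have hW1 : 1 ≤ W := Nat.one_le_pow _ _ hw
  have hWX : 100000 * W ^ 2 ≤ X := by
    rw [hW]
    calc 100000 * (w ^ 3) ^ 2 = 100000 * w ^ 6 := by ring
      _ ≤ X := hX
  have h1 : a * (400 * W) ≤ 8 * X ^ 3 := Nat.div_mul_le_self _ _
  have h2 : X ^ 3 ≤ 12 * N * W := by
    calc X ^ 3 ≤ (k * w) ^ 3 := Nat.pow_le_pow_left hk 3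
      _ = k ^ 3 * W := by rw [hW]; ring
      _ ≤ 12 * N * W := Nat.mul_le_mul_right _ hch
  by_contra hcon
  push Not at hcon
  have h5 : 192 * X ^ 2 * (100000 * W ^ 2) ≤ 192 * X ^ 2 * X := Nat.mul_le_mul_left _ hWX
  have h6 : 192 * X ^ 2 * X = 192 * X ^ 3 := by ring
  have hWX3 : 4800 * W ≤ X ^ 3 := by
    calc 4800 * W ≤ 100000 * W ^ 2 := by nlinarith
      _ ≤ X := hWX
      _ ≤ X ^ 3 := Nat.le_self_pow (by norm_num) X
  have h8 : (N + 1) * W ≤ (a + 1 + 4000 * W * X ^ 2) * W := Nat.mul_le_mul_right _ (by omega)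
  have h9 : (a + 1 + 4000 * W * X ^ 2) * W * 4800
      = 12 * (a * (400 * W)) + 4800 * W + 192 * X ^ 2 * (100000 * W ^ 2) := by ring
  have h10 : (N + 1) * W = N * W + W := by ring
  have h11 : 12 * N * W = 12 * (N * W) := by ring
  have hX3 : 0 < X ^ 3 := lt_of_lt_of_le (by omega) hWX3
  omega

theorem caseA {P : Finset ℕ} {X k : ℕ} (hP : ∀ p ∈ P, p.Prime ∧ X ≤ p ∧ p < 2 * X)
    (hk : P.card = k) (hX0 : 100000 ≤ X) (hkk : 100000 * X ≤ k ^ 2) (hk0 : 100000 ≤ k)
    (U : Finset ℕ) (hnotU : ∀ K ⊆ P, K.card ≠ 1 → K.card ≠ 3 → pr K ∉ U)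
    (J : Finset ℕ) (hJP : J ⊆ P) (helt : pr J < pr P) (hJ3 : 3 ≤ J.card) (hJ4 : J.card ≠ 4)
    (hJk : 2 * J.card ≤ k) :
    pr J ≤ ∑ i ∈ ((pr P).properDivisors \ U).filter (fun i => i < pr J), i := by
  have hPp : ∀ p ∈ P, p.Prime := fun p hp => (hP p hp).1
  have hlow : ∀ K ⊆ P, X ^ K.card ≤ pr K := fun K hK =>
    pr_lower (fun p hp => (hP p (hK hp)).2.1)
  have hupp : ∀ K ⊆ P, pr K ≤ (2 * X) ^ K.card := fun K hK =>
    pr_upper (fun p hp => (hP p (hK hp)).2.2.le)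
  have hX3 : 16 * X ^ 2 < X ^ 3 := by
    calc 16 * X ^ 2 < X * X ^ 2 := Nat.mul_lt_mul_of_pos_right (by omega) (by positivity)
      _ = X ^ 3 := by ring
  obtain ⟨T, hTJ, hTc⟩ := Finset.exists_subset_card_eq (show 3 ≤ J.card by omega)
  have hdisj : ∀ K ∈ (P \ J).powersetCard 2, Disjoint (J \ T) K := by
    intro K hK
    obtain ⟨hK1, hK2⟩ := Finset.mem_powersetCard.1 hK
    rw [Finset.disjoint_left]
    intro x hx hx'
    exact (Finset.mem_sdiff.1 (hK1 hx')).2 (Finset.mem_sdiff.1 hx).1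
  have hinj : Set.InjOn (fun K => (J \ T) ∪ K) ((P \ J).powersetCard 2 : Set (Finset ℕ)) := by
    intro K hK K' hK' h
    obtain ⟨hK1, hK2⟩ := Finset.mem_powersetCard.1 hK
    obtain ⟨hK1', hK2'⟩ := Finset.mem_powersetCard.1 hK'
    simp only at h
    ext x
    constructor
    · intro hx
      have h1 : x ∈ (J \ T) ∪ K' := by rw [← h]; exact Finset.mem_union_right _ hx
      rcases Finset.mem_union.1 h1 with h2 | h2
      · exact absurd (Finset.mem_sdiff.1 h2).1 (Finset.mem_sdiff.1 (hK1 hx)).2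
      · exact h2
    · intro hx
      have h1 : x ∈ (J \ T) ∪ K := by rw [h]; exact Finset.mem_union_right _ hx
      rcases Finset.mem_union.1 h1 with h2 | h2
      · exact absurd (Finset.mem_sdiff.1 h2).1 (Finset.mem_sdiff.1 (hK1' hx)).2
      · exact h2
  set g := pr (J \ T) with hg
  have hgpos : 0 < g := pr_pos hPp (Finset.sdiff_subset.trans hJP)
  have hgT : g * pr T = pr J := by rw [hg, pr_sdiff hTJ]
  have hT1 := hlow T (hTJ.trans hJP)
  have hT2 := hupp T (hTJ.trans hJP)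
  rw [hTc] at hT1 hT2
  have h1 := fam hPp U (pr J) helt (((P \ J).powersetCard 2).image (fun K => (J \ T) ∪ K)) (by
    intro L hL
    obtain ⟨K, hK, rfl⟩ := Finset.mem_image.1 hL
    obtain ⟨hK1, hK2⟩ := Finset.mem_powersetCard.1 hK
    have hKP : K ⊆ P := hK1.trans Finset.sdiff_subset
    have hLP : (J \ T) ∪ K ⊆ P := Finset.union_subset (Finset.sdiff_subset.trans hJP) hKP
    refine ⟨hLP, ?_, ?_⟩
    · rw [pr_union (hdisj K hK), ← hgT]
      apply Nat.mul_lt_mul_of_pos_left _ hgpos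
      have := hupp K hKP
      rw [hK2] at this
      have h2 : (2 * X) ^ 2 = 4 * X ^ 2 := by ring
      omega
    · have hc : ((J \ T) ∪ K).card = J.card - 1 := by
        rw [Finset.card_union_of_disjoint (hdisj K hK), Finset.card_sdiff_of_subset hTJ]
        omega
      apply hnotU _ hLP <;> omega) (g * X ^ 2) (by
    intro L hL
    obtain ⟨K, hK, rfl⟩ := Finset.mem_image.1 hL
    obtain ⟨hK1, hK2⟩ := Finset.mem_powersetCard.1 hK
    have hKP : K ⊆ P := hK1.trans Finset.sdiff_subset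
    rw [pr_union (hdisj K hK)]
    apply Nat.mul_le_mul_left
    have := hlow K hKP
    rwa [hK2] at this)
  rw [Finset.card_image_of_injOn hinj, Finset.card_powersetCard,
    Finset.card_sdiff_of_subset hJP, hk] at h1
  have h2 := choose2 (k - J.card) (by omega)
  have h3 : k ^ 2 ≤ 4 * (k - J.card) ^ 2 := by
    calc k ^ 2 ≤ (2 * (k - J.card)) ^ 2 := Nat.pow_le_pow_left (by omega) 2
      _ = _ := by ring
  have h4 : 8 * X ≤ (k - J.card).choose 2 := by omega
  have h5 : 8 * X * (g * X ^ 2) ≤ (k - J.card).choose 2 * (g * X ^ 2) :=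
    Nat.mul_le_mul_right _ h4
  have h6 : 8 * X * (g * X ^ 2) = g * (2 * X) ^ 3 := by ring
  have h7 : g * pr T ≤ g * (2 * X) ^ 3 := Nat.mul_le_mul_left _ hT2
  omega

theorem caseB {P : Finset ℕ} {X k : ℕ} (hP : ∀ p ∈ P, p.Prime ∧ X ≤ p ∧ p < 2 * X)
    (hk : P.card = k) (hX0 : 100000 ≤ X) (hkk : 100000 * X ≤ k ^ 2) (hk0 : 100000 ≤ k)
    (U : Finset ℕ) (hnotU : ∀ K ⊆ P, K.card ≠ 1 → K.card ≠ 3 → pr K ∉ U)
    (J : Finset ℕ) (hJP : J ⊆ P) (helt : pr J < pr P) (hJlt : J.card < k)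
    (hJk : k < 2 * J.card) :
    pr J ≤ ∑ i ∈ ((pr P).properDivisors \ U).filter (fun i => i < pr J), i := by
  have hPp : ∀ p ∈ P, p.Prime := fun p hp => (hP p hp).1
  have hlow : ∀ K ⊆ P, X ^ K.card ≤ pr K := fun K hK =>
    pr_lower (fun p hp => (hP p (hK hp)).2.1)
  have hupp : ∀ K ⊆ P, pr K ≤ (2 * X) ^ K.card := fun K hK =>
    pr_upper (fun p hp => (hP p (hK hp)).2.2.le)
  have hX2 : 2 * X < X ^ 2 := by nlinarith
  obtain ⟨p, hpP, hpJ⟩ : ∃ p ∈ P, p ∉ J := by
    by_contra hcon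
    push Not at hcon
    have : P.card ≤ J.card := Finset.card_le_card hcon
    omega
  have hpb := (hP p hpP).2
  have hinj : Set.InjOn (fun T => insert p (J \ T)) (J.powersetCard 2 : Set (Finset ℕ)) := by
    intro T hT T' hT' h
    obtain ⟨hT1, hT2⟩ := Finset.mem_powersetCard.1 hT
    obtain ⟨hT1', hT2'⟩ := Finset.mem_powersetCard.1 hT'
    simp only at h
    ext x
    constructor
    · intro hx
      by_contra hx'
      have h1 : x ∈ insert p (J \ T) := by
        rw [h]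
        exact Finset.mem_insert_of_mem (Finset.mem_sdiff.2 ⟨hT1 hx, hx'⟩)
      rcases Finset.mem_insert.1 h1 with h2 | h2
      · exact hpJ (h2 ▸ hT1 hx)
      · exact (Finset.mem_sdiff.1 h2).2 hx
    · intro hx
      by_contra hx'
      have h1 : x ∈ insert p (J \ T') := by
        rw [← h]
        exact Finset.mem_insert_of_mem (Finset.mem_sdiff.2 ⟨hT1' hx, hx'⟩)
      rcases Finset.mem_insert.1 h1 with h2 | h2
      · exact hpJ (h2 ▸ hT1' hx)
      · exact (Finset.mem_sdiff.1 h2).2 hx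
  have hprL : ∀ T ∈ J.powersetCard 2, pr (insert p (J \ T)) * pr T = p * pr J := by
    intro T hT
    obtain ⟨hT1, hT2⟩ := Finset.mem_powersetCard.1 hT
    have h1 : pr (insert p (J \ T)) = p * pr (J \ T) := by
      unfold pr
      rw [Finset.prod_insert (fun h => hpJ (Finset.mem_sdiff.1 h).1)]
    rw [h1, mul_assoc, pr_sdiff hT1]
  have hepos : 0 < pr J := pr_pos hPp hJP
  set e := pr J with he
  have hb : ∀ T ∈ J.powersetCard 2, X ^ 2 ≤ pr T ∧ pr T ≤ 4 * X ^ 2 := by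
    intro T hT
    obtain ⟨hT1, hT2⟩ := Finset.mem_powersetCard.1 hT
    have h1 := hlow T (hT1.trans hJP)
    have h2 := hupp T (hT1.trans hJP)
    rw [hT2] at h1 h2
    exact ⟨h1, by calc pr T ≤ (2 * X) ^ 2 := h2
                _ = 4 * X ^ 2 := by ring⟩
  have h1 := fam hPp U e helt ((J.powersetCard 2).image (fun T => insert p (J \ T))) (by
    intro L hL
    obtain ⟨T, hT, rfl⟩ := Finset.mem_image.1 hL
    obtain ⟨hT1, hT2⟩ := Finset.mem_powersetCard.1 hT
    have hLP : insert p (J \ T) ⊆ P :=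
      Finset.insert_subset hpP (Finset.sdiff_subset.trans hJP)
    refine ⟨hLP, ?_, ?_⟩
    · by_contra hcon
      push Not at hcon
      have h2 := hprL T hT
      have h3 : e * X ^ 2 ≤ pr (insert p (J \ T)) * pr T :=
        Nat.mul_le_mul hcon (hb T hT).1
      have h4 : p * e < X ^ 2 * e := Nat.mul_lt_mul_of_pos_right (by omega) hepos
      have h5 : e * X ^ 2 = X ^ 2 * e := mul_comm _ _
      omega
    · have hc : (insert p (J \ T)).card = J.card - 1 := by
        rw [Finset.card_insert_of_notMem (fun h => hpJ (Finset.mem_sdiff.1 h).1),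
          Finset.card_sdiff_of_subset hT1]
        omega
      apply hnotU _ hLP <;> omega) ((e + 4 * X - 1) / (4 * X)) (by
    intro L hL
    obtain ⟨T, hT, rfl⟩ := Finset.mem_image.1 hL
    have h2 := hprL T hT
    have h3 : X * e ≤ pr (insert p (J \ T)) * (4 * X ^ 2) := by
      calc X * e ≤ p * e := Nat.mul_le_mul_right _ hpb.1
        _ = pr (insert p (J \ T)) * pr T := h2.symm
        _ ≤ _ := Nat.mul_le_mul_left _ (hb T hT).2
    have h4 : e ≤ pr (insert p (J \ T)) * (4 * X) := by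
      have : X * e ≤ X * (pr (insert p (J \ T)) * (4 * X)) := by
        calc X * e ≤ _ := h3
          _ = _ := by ring
      exact Nat.le_of_mul_le_mul_left this (by omega)
    rw [Nat.div_le_iff_le_mul_add_pred (by omega)]
    have h5 : pr (insert p (J \ T)) * (4 * X) = 4 * X * pr (insert p (J \ T)) :=
      mul_comm _ _
    omega)
  rw [Finset.card_image_of_injOn hinj, Finset.card_powersetCard] at h1
  have h2 := choose2 J.card (by omega)
  have h3 : k ^ 2 ≤ 4 * J.card ^ 2 := by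
    calc k ^ 2 ≤ (2 * J.card) ^ 2 := Nat.pow_le_pow_left (by omega) 2
      _ = _ := by ring
  have h4 : 4 * X ≤ J.card.choose 2 := by omega
  have h5 : 4 * X * ((e + 4 * X - 1) / (4 * X))
      ≤ J.card.choose 2 * ((e + 4 * X - 1) / (4 * X)) := Nat.mul_le_mul_right _ h4
  have h6 : e ≤ 4 * X * ((e + 4 * X - 1) / (4 * X)) := by
    have := Nat.lt_mul_div_succ (e + 4 * X - 1) (show 0 < 4 * X by omega)
    have h8 : 4 * X * ((e + 4 * X - 1) / (4 * X) + 1)
        = 4 * X * ((e + 4 * X - 1) / (4 * X)) + 4 * X := by ring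
    omega
  omega

theorem case4 {P : Finset ℕ} {X k : ℕ} (hP : ∀ p ∈ P, p.Prime ∧ X ≤ p ∧ p < 2 * X)
    (hk : P.card = k) (hX0 : 100000 ≤ X)
    (U : Finset ℕ) (hU : 16 * X + U.card ≤ k.choose 3)
    (J : Finset ℕ) (hJP : J ⊆ P) (helt : pr J < pr P) (hJ4 : J.card = 4) :
    pr J ≤ ∑ i ∈ ((pr P).properDivisors \ U).filter (fun i => i < pr J), i := by
  have hPp : ∀ p ∈ P, p.Prime := fun p hp => (hP p hp).1
  have hinj3 : Set.InjOn pr (P.powersetCard 3 : Set (Finset ℕ)) :=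
    (pr_injOn hPp).mono (fun J hJ => (Finset.mem_powersetCard.1 hJ).1)
  have hlow : ∀ K ⊆ P, X ^ K.card ≤ pr K := fun K hK =>
    pr_lower (fun p hp => (hP p (hK hp)).2.1)
  have hupp : ∀ K ⊆ P, pr K ≤ (2 * X) ^ K.card := fun K hK =>
    pr_upper (fun p hp => (hP p (hK hp)).2.2.le)
  have h1 := fam hPp U (pr J) helt ((P.powersetCard 3).filter (fun K => pr K ∉ U)) (by
    intro K hK
    rw [Finset.mem_filter] at hK
    obtain ⟨hK1, hK2⟩ := Finset.mem_powersetCard.1 hK.1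
    refine ⟨hK1, ?_, hK.2⟩
    have h2 := hupp K hK1
    rw [hK2] at h2
    have h3 := hlow J hJP
    rw [hJ4] at h3
    have h4 : (2 * X) ^ 3 = 8 * X ^ 3 := by ring
    have h5 : 8 * X ^ 3 < X * X ^ 3 := Nat.mul_lt_mul_of_pos_right (by omega) (by positivity)
    have h6 : X * X ^ 3 = X ^ 4 := by ring
    omega) (X ^ 3) (by
    intro K hK
    rw [Finset.mem_filter] at hK
    obtain ⟨hK1, hK2⟩ := Finset.mem_powersetCard.1 hK.1
    have := hlow K hK1
    rwa [hK2] at this)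
  have h2 : ((P.powersetCard 3).filter (fun K => pr K ∈ U)).card ≤ U.card := by
    apply Finset.card_le_card_of_injOn pr
    · intro K hK
      exact (Finset.mem_filter.1 hK).2
    · apply hinj3.mono
      intro K hK
      exact (Finset.mem_filter.1 hK).1
  have h3 := Finset.card_filter_add_card_filter_not (s := P.powersetCard 3)
    (fun K => pr K ∈ U)
  rw [Finset.card_powersetCard, hk] at h3
  have h4 := hupp J hJP
  rw [hJ4] at h4
  have h5 : 16 * X ≤ ((P.powersetCard 3).filter (fun K => pr K ∉ U)).card := by omega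
  have h6 : 16 * X * X ^ 3 ≤ ((P.powersetCard 3).filter (fun K => pr K ∉ U)).card * X ^ 3 :=
    Nat.mul_le_mul_right _ h5
  have h7 : 16 * X * X ^ 3 = (2 * X) ^ 4 := by ring
  omega

theorem squarefree_pr {P : Finset ℕ} (hPp : ∀ p ∈ P, p.Prime) : Squarefree (pr P) := by
  unfold pr
  refine Finset.squarefree_prod_of_pairwise_isCoprime (fun _ hp _ hq hpq ↦ ?_)
    fun _ hp ↦ (hPp _ hp).squarefree
  simp only [← Nat.coprime_iff_isRelPrime]
  exact (Nat.coprime_primes (hPp _ hp) (hPp _ hq)).mpr hpq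

theorem dvd_pr {P : Finset ℕ} (hPp : ∀ p ∈ P, p.Prime) {e : ℕ} (he : e ∣ pr P) :
    ∃ J ⊆ P, pr J = e := by
  refine ⟨e.primeFactors, ?_, ?_⟩
  · rw [← primeFactors_pr hPp (Finset.Subset.refl P)]
    exact Nat.primeFactors_mono he (pr_pos hPp (Finset.Subset.refl P)).ne'
  · exact Nat.prod_primeFactors_of_squarefree (Squarefree.squarefree_of_dvd he (squarefree_pr hPp))

theorem condAll {P : Finset ℕ} {X k : ℕ} (hP : ∀ p ∈ P, p.Prime ∧ X ≤ p ∧ p < 2 * X)
    (hk : P.card = k) (hX0 : 100000 ≤ X) (hkk : 100000 * X ≤ k ^ 2) (hk0 : 100000 ≤ k)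
    (U : Finset ℕ) (hnotU : ∀ K ⊆ P, K.card ≠ 1 → K.card ≠ 3 → pr K ∉ U)
    (hU : 16 * X + U.card ≤ k.choose 3) (e : ℕ) (he : e ∈ (pr P).properDivisors) :
    e ≤ 4 * X ^ 2 ∨ e ≤ ∑ i ∈ ((pr P).properDivisors \ U).filter (fun i => i < e), i := by
  have hPp : ∀ p ∈ P, p.Prime := fun p hp => (hP p hp).1
  obtain ⟨hedvd, helt⟩ := Nat.mem_properDivisors.1 he
  obtain ⟨J, hJP, rfl⟩ := dvd_pr hPp hedvd
  have hJlt : J.card < k := by
    rw [← hk]
    apply Finset.card_lt_card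
    refine ⟨hJP, fun h => ?_⟩
    have : J = P := Finset.Subset.antisymm hJP h
    rw [this] at helt
    omega
  by_cases h2 : J.card ≤ 2
  · left
    calc pr J ≤ (2 * X) ^ J.card := pr_upper (fun p hp => (hP p (hJP hp)).2.2.le)
      _ ≤ (2 * X) ^ 2 := Nat.pow_le_pow_right (by omega) h2
      _ = 4 * X ^ 2 := by ring
  · right
    by_cases h4 : J.card = 4
    · exact case4 hP hk hX0 U hU J hJP helt h4
    · by_cases h5 : 2 * J.card ≤ k
      · exact caseA hP hk hX0 hkk hk0 U hnotU J hJP helt (by omega) h4 h5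
      · exact caseB hP hk hX0 hkk hk0 U hnotU J hJP helt hJlt (by omega)

end Pool.Agent.H5SWeird
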