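import Mathlib
import Pool.Agent.H5S_Weird.Block

set_option autoImplicit false

namespace Pool.Agent.H5SWeird

open Finset

theorem sum_union_le (S T : Finset ℕ) : ∑ i ∈ S ∪ T, i ≤ ∑ i ∈ S, i + ∑ i ∈ T, i := by
  have := Finset.sum_union_inter (s₁ := S) (s₂ := T) (f := fun i : ℕ => i)
  omega

theorem base (X w : ℕ) (P : Finset ℕ) (hP : ∀ p ∈ P, p.Prime ∧ X ≤ p ∧ p < 2 * X) (hw : 1 ≤ w)
    (hk : X ≤ P.card * w) (hX : 100000 * w ^ 6 ≤ X) :
    ∃ A, 1 ≤ A ∧ A ≤ X ^ 6 ∧ Good (pr P) A := by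
  have hPp : ∀ p ∈ P, p.Prime := fun p hp => (hP p hp).1
  obtain ⟨k, hkdef⟩ : ∃ k, P.card = k := ⟨_, rfl⟩
  rw [hkdef] at hk
  have hX0 : 100000 ≤ X := le_trans (Nat.le_mul_of_pos_right _ (by positivity)) hX
  have hk5 : 100000 * w ^ 5 ≤ k := by
    have h1 : 100000 * w ^ 5 * w ≤ k * w := by
      calc 100000 * w ^ 5 * w = 100000 * w ^ 6 := by ring
        _ ≤ X := hX
        _ ≤ _ := hk
    exact Nat.le_of_mul_le_mul_right h1 (by omega)
  have hk0 : 100000 ≤ k := le_trans (Nat.le_mul_of_pos_right _ (by positivity)) hk5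
  have hkk : 100000 * X ≤ k ^ 2 := by
    calc 100000 * X ≤ 100000 * (k * w) := Nat.mul_le_mul_left _ hk
      _ ≤ 100000 * (k * w ^ 5) := by
          apply Nat.mul_le_mul_left
          apply Nat.mul_le_mul_left
          exact Nat.le_self_pow (by norm_num) w
      _ = k * (100000 * w ^ 5) := by ring
      _ ≤ k * k := Nat.mul_le_mul_left _ hk5
      _ = k ^ 2 := by ring
  have hN := numer X w k hw hk hX (by omega)
  have hN2 : 4000 * X ^ 2 ≤ k.choose 3 := by
    have h1 : 4000 * 1 * X ^ 2 ≤ 4000 * w ^ 3 * X ^ 2 := by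
      apply Nat.mul_le_mul_right
      apply Nat.mul_le_mul_left
      exact Nat.one_le_pow _ _ hw
    have h2 : 4000 * w ^ 3 * X ^ 2 ≤ k.choose 3 := le_trans (Nat.le_add_left _ _) hN
    omega
  -- level three
  obtain ⟨S, hS⟩ : ∃ S, S = (P.powersetCard 3).image pr := ⟨_, rfl⟩
  have hinj3 : Set.InjOn pr (P.powersetCard 3 : Set (Finset ℕ)) :=
    (pr_injOn hPp).mono (fun J hJ => (Finset.mem_powersetCard.1 hJ).1)
  have hScard : S.card = k.choose 3 := by
    rw [hS, Finset.card_image_of_injOn hinj3, Finset.card_powersetCard, hkdef]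
  have hSb : ∀ x ∈ S, X ^ 3 ≤ x ∧ x < 8 * X ^ 3 ∧ x.primeFactors.card = 3 := by
    intro x hx
    rw [hS] at hx
    obtain ⟨J, hJ, rfl⟩ := Finset.mem_image.1 hx
    obtain ⟨h1, h2⟩ := Finset.mem_powersetCard.1 hJ
    refine ⟨?_, ?_, ?_⟩
    · have := pr_lower (J := J) (X := X) (fun p hp => (hP p (h1 hp)).2.1)
      rwa [h2] at this
    · have := pr_upper (J := J) (X := 2 * X - 1) (fun p hp => by
        have := (hP p (h1 hp)).2.2; omega)
      rw [h2] at this
      calc pr J ≤ (2 * X - 1) ^ 3 := this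
        _ < (2 * X) ^ 3 := Nat.pow_lt_pow_left (by omega) (by norm_num)
        _ = 8 * X ^ 3 := by ring
    · rw [primeFactors_pr hPp h1, h2]
  have hmpos : 0 < pr P := pr_pos hPp (Finset.Subset.refl P)
  have hlvl : ∀ K ⊆ P, K.card < k → pr K ∈ (pr P).properDivisors := by
    intro K hK hKc
    rw [Nat.mem_properDivisors]
    refine ⟨Finset.prod_dvd_prod_of_subset K P (fun p => p) hK, ?_⟩
    refine lt_of_le_of_ne
      (Nat.le_of_dvd hmpos (Finset.prod_dvd_prod_of_subset K P (fun p => p) hK)) ?_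
    intro h
    have : K = P := pr_injOn hPp hK (Finset.Subset.refl P) h
    rw [this] at hKc
    omega
  have hSpd : ∀ x ∈ S, x ∈ (pr P).properDivisors := by
    intro x hx
    rw [hS] at hx
    obtain ⟨J, hJ, rfl⟩ := Finset.mem_image.1 hx
    obtain ⟨h1, h2⟩ := Finset.mem_powersetCard.1 hJ
    exact hlvl J h1 (by omega)
  clear hS
  -- parameters
  obtain ⟨G, hG⟩ : ∃ G, G = 400 * w ^ 3 := ⟨_, rfl⟩
  obtain ⟨R, hR⟩ : ∃ R, R = 5 * X ^ 2 := ⟨_, rfl⟩
  have hGk : G ≤ k := by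
    rw [hG]
    calc 400 * w ^ 3 ≤ 100000 * w ^ 5 :=
          Nat.mul_le_mul (by norm_num) (Nat.pow_le_pow_right hw (by norm_num))
      _ ≤ k := hk5
  have hGX : G < X := by
    rw [hG]
    calc 400 * w ^ 3 < 100000 * w ^ 3 := by
          have : 0 < w ^ 3 := by positivity
          omega
      _ ≤ 100000 * w ^ 6 := Nat.mul_le_mul_left _ (Nat.pow_le_pow_right hw (by norm_num))
      _ ≤ X := hX
  have hcard : 8 * X ^ 3 / G + 1 + G * (2 * R) ≤ S.card := by
    rw [hScard]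
    have : G * (2 * R) = 4000 * w ^ 3 * X ^ 2 := by rw [hG, hR]; ring
    rw [this, hG]
    exact hN
  have hGpos : 1 ≤ G := by
    rw [hG]
    have : 1 ≤ w ^ 3 := Nat.one_le_pow _ _ hw
    omega
  obtain ⟨D, hD1, hDG, Y, hYS, hYc, hYD, hYD'⟩ :=
    extract S (8 * X ^ 3) G R hGpos (fun x hx => (hSb x hx).2.1) hcard
  obtain ⟨Q, hQP, hQc⟩ := Finset.exists_subset_card_eq (show D ≤ P.card by omega)
  obtain ⟨Y', hY'⟩ : ∃ Y', Y' = Y.image (fun y => y + D) := ⟨_, rfl⟩
  have hY'S : ∀ y ∈ Y', y ∈ S := by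
    intro y hy
    rw [hY'] at hy
    obtain ⟨z, hz, rfl⟩ := Finset.mem_image.1 hy
    exact hYD z hz
  have hY'c : Y'.card = R := by
    rw [hY', Finset.card_image_of_injective _ (add_left_injective D), hYc]
  have hY'sum : ∑ y ∈ Y', y = ∑ y ∈ Y, y + R * D := by
    rw [hY', Finset.sum_image (fun a _ b _ hab => by simpa using hab), Finset.sum_add_distrib]
    simp [hYc]
  obtain ⟨U, hU⟩ : ∃ U, U = Q ∪ (Y ∪ Y') := ⟨_, rfl⟩
  have hX2 : 2 * X < X ^ 2 := by nlinarith
  have hX3 : 16 * X ^ 2 < X ^ 3 := by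
    calc 16 * X ^ 2 < X * X ^ 2 := Nat.mul_lt_mul_of_pos_right (by omega) (by positivity)
      _ = X ^ 3 := by ring
  have hUb : ∀ x ∈ U, x.primeFactors.card = 1 ∨ x.primeFactors.card = 3 := by
    intro x hx
    rw [hU, Finset.mem_union, Finset.mem_union] at hx
    rcases hx with h | h | h
    · left
      rw [Nat.Prime.primeFactors (hPp x (hQP h))]
      simp
    · right; exact (hSb x (hYS h)).2.2
    · right; exact (hSb x (hY'S x h)).2.2
  have hQb : ∀ q ∈ Q, q.Prime ∧ X ≤ q ∧ q < 2 * X := fun q hq => hP q (hQP hq)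
  have hUcard : U.card ≤ D + (R + R) := by
    rw [hU]
    have h1 := Finset.card_union_le Q (Y ∪ Y')
    have h2 := Finset.card_union_le Y Y'
    omega
  obtain ⟨A, hA⟩ : ∃ A, A = ∑ y ∈ Y, y + D * (2 * X) := ⟨_, rfl⟩
  obtain ⟨B, hB⟩ : ∃ B, B = ∑ y ∈ Y, y + R * D := ⟨_, rfl⟩
  have hint : ∀ t, A ≤ t → t ≤ B → Rp (fun i : ℕ => i) U t := by
    have := interval Q Y D X hD1 (by
      intro q hq
      have hq' := hQb q hq
      rw [Nat.Prime.coprime_iff_not_dvd hq'.1]
      intro hdvd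
      have := Nat.le_of_dvd (by omega) hdvd
      omega) (by omega) (fun q hq => (hQb q hq).2.2.le) hYD' (by
      intro q hq
      have h1 := (hQb q hq).2.2
      rw [← hY']
      constructor
      · intro h
        have := (hSb q (hYS h)).1
        omega
      · intro h
        have := (hSb q (hY'S q h)).1
        omega)
    rw [hQc, hYc, ← hY', ← hU, ← hA, ← hB] at this
    exact this
  have hYsum : ∑ y ∈ Y, y ≤ R * (8 * X ^ 3) := by
    calc ∑ y ∈ Y, y ≤ Y.card • (8 * X ^ 3) :=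
          Finset.sum_le_card_nsmul _ _ _ (fun y hy => (hSb y (hYS hy)).2.1.le)
      _ = _ := by rw [hYc]; simp
  have hA1 : 1 ≤ A := by
    rw [hA]
    have : 1 ≤ D * (2 * X) := Nat.mul_pos hD1 (by omega)
    omega
  have hA7 : A ≤ X ^ 6 := by
    have h1 : D * (2 * X) ≤ X * (2 * X) := Nat.mul_le_mul_right _ (by omega)
    have h2 : R * (8 * X ^ 3) = 40 * X ^ 5 := by rw [hR]; ring
    have h3 : X * (2 * X) ≤ X ^ 5 := by
      calc X * (2 * X) = 2 * X ^ 2 := by ring
        _ ≤ X ^ 3 := by omega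
        _ ≤ X ^ 5 := Nat.pow_le_pow_right (by omega) (by norm_num)
    have h4 : 41 * X ^ 5 ≤ X ^ 6 := by
      calc 41 * X ^ 5 ≤ X * X ^ 5 := Nat.mul_le_mul_right _ (by omega)
        _ = X ^ 6 := by ring
    omega
  have hDX : D * (2 * X) ≤ D * X ^ 2 := Nat.mul_le_mul_left _ hX2.le
  have hRD : R * D = 5 * (D * X ^ 2) := by rw [hR]; ring
  have hDX2 : X ^ 2 ≤ D * X ^ 2 := Nat.le_mul_of_pos_left _ hD1
  have hAB : A + 4 * X ^ 2 ≤ B := by omega
  have hcond : ∀ e ∈ (pr P).properDivisors \ U, e + A ≤ B + 1 +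
      ∑ i ∈ ((pr P).properDivisors \ U).filter (fun i => i < e), i := by
    intro e heV
    have := condAll hP hkdef hX0 hkk hk0 U (by
      intro K hK h1 h3 hmem
      have := hUb _ hmem
      rw [primeFactors_pr hPp hK] at this
      omega) (by omega) e (Finset.mem_sdiff.1 heV).1
    rcases this with h | h <;> omega
  have hUpd : U ⊆ (pr P).properDivisors := by
    intro x hx
    rw [hU, Finset.mem_union, Finset.mem_union] at hx
    rcases hx with h | h | h
    · have := hlvl {x} (by simpa using hQP h) (by simp; omega)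
      simpa [pr] using this
    · exact hSpd x (hYS h)
    · exact hSpd x (hY'S x h)
  have hch := chain (fun i : ℕ => i) U _ A B hint Finset.disjoint_sdiff hcond
  have hUV : U ∪ ((pr P).properDivisors \ U) = (pr P).properDivisors :=
    Finset.union_sdiff_of_subset hUpd
  rw [hUV] at hch
  have hsum : ∑ i ∈ U, i + ∑ i ∈ (pr P).properDivisors \ U, i = sp (pr P) := by
    rw [← Finset.sum_union Finset.disjoint_sdiff, hUV]
    rfl
  refine ⟨A, hA1, hA7, ?_⟩
  have hQsum : ∑ i ∈ Q, i ≤ D * (2 * X) := by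
    calc ∑ i ∈ Q, i ≤ Q.card • (2 * X) :=
          Finset.sum_le_card_nsmul _ _ _ (fun y hy => (hQb y hy).2.2.le)
      _ = _ := by rw [hQc]; simp
  have hUsum : ∑ i ∈ U, i ≤ 2 * B := by
    have h1 := sum_union_le Q (Y ∪ Y')
    have h2 := sum_union_le Y Y'
    rw [hU]
    omega
  intro t ht1 ht2
  by_cases hle : t ≤ B + ∑ i ∈ (pr P).properDivisors \ U, i
  · exact hch t ht1 hle
  · push Not at hle
    have hr := (hch (sp (pr P) - t) (by omega) (by omega)).symm
    rw [show ∑ i ∈ (pr P).properDivisors, i = sp (pr P) from rfl,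
      show sp (pr P) - (sp (pr P) - t) = t by omega] at hr
    exact hr

end Pool.Agent.H5SWeird
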