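import Mathlib
import Pool.Agent.H5S_Weird.Base2

set_option autoImplicit false

namespace Pool.Agent.H5SWeird

open Finset

theorem recip_sum {S : Finset ℕ} (hS : ∀ p ∈ S, p.Prime) :
    (∑ p ∈ S, (1 / p : ℝ)) * (pr S : ℝ) ≤ (sp (pr S) : ℝ) := by
  have hpos : 0 < pr S := pr_pos hS (Finset.Subset.refl S)
  have hmul : ∀ p ∈ S, p * pr (S.erase p) = pr S := by
    intro p hp
    unfold pr
    exact Finset.mul_prod_erase S (fun p => p) hp
  have hnat : ∑ p ∈ S, pr (S.erase p) ≤ sp (pr S) := by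
    unfold sp
    have hinj : Set.InjOn (fun p => pr (S.erase p)) (S : Set ℕ) := by
      intro p hp q hq hpq
      have h1 := hmul p hp
      have h2 := hmul q hq
      simp only at hpq
      rw [hpq] at h1
      have hpos' : 0 < pr (S.erase q) := pr_pos hS (Finset.erase_subset _ _)
      exact Nat.eq_of_mul_eq_mul_right hpos' (h1.trans h2.symm)
    calc ∑ p ∈ S, pr (S.erase p) = ∑ i ∈ S.image (fun p => pr (S.erase p)), i := by
          rw [Finset.sum_image hinj]
      _ ≤ _ := by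
          apply Finset.sum_le_sum_of_subset
          intro x hx
          obtain ⟨p, hp, rfl⟩ := Finset.mem_image.1 hx
          rw [Nat.mem_properDivisors]
          have h1 := hmul p hp
          refine ⟨⟨p, by rw [mul_comm]; exact h1.symm⟩, ?_⟩
          have hpos' : 0 < pr (S.erase p) := pr_pos hS (Finset.erase_subset _ _)
          have := (hS p hp).two_le
          nlinarith
  have h2 : (∑ p ∈ S, (1 / p : ℝ)) * (pr S : ℝ) = ((∑ p ∈ S, pr (S.erase p) : ℕ) : ℝ) := by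
    rw [Finset.sum_mul]
    push_cast
    apply Finset.sum_congr rfl
    intro p hp
    have hp0 : (p : ℝ) ≠ 0 := by
      have := (hS p hp).pos
      positivity
    rw [← hmul p hp]
    push_cast
    field_simp
  rw [h2]
  exact_mod_cast hnat

/-- State of an open cluster. -/
def St (j m A : ℕ) : Prop :=
  1 ≤ A ∧ A ≤ 2 ^ (6 * j) ∧ Good m A ∧ m ≤ 2 ^ (j + 1) * sp m ∧ 2 * m ≤ 2 ^ j * sp m ∧
    (2 ^ (10 * j) + 2) * A ≤ sp m + 1 ∧ A ≤ m

theorem sp_prime_mul {p m : ℕ} (hp : p.Prime) (h : ¬ p ∣ m) :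
    sp (p * m) = (p + 1) * sp m + m := by
  have hcop := (Nat.Prime.coprime_iff_not_dvd hp).2 h
  rw [sp_mul hcop]
  have h1 : sg p = p + 1 := by unfold sg; rw [Nat.Prime.sum_divisors hp]
  have h2 : sp p = 1 := by
    unfold sp
    rw [Nat.Prime.sum_properDivisors hp]
  rw [h1, h2, mul_one]

theorem St.grow {j m A p : ℕ} (h : St j m A) (hm : m ≠ 0) (hp : p.Prime) (hpm : ¬ p ∣ m)
    (hpj : 2 ^ (j + 1) ≤ p) (h1 : (p + 2) * A ≤ sp m + 1) : St j (p * m) A := by
  obtain ⟨hA1, hA2, hG, h3, h4, h5, hAm⟩ := h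
  have hsp := sp_prime_mul hp hpm
  have hle : sp m ≤ sp (p * m) := by
    rw [hsp]; nlinarith [Nat.zero_le (p * sp m)]
  have hle2 : p * sp m ≤ sp (p * m) := by
    rw [hsp]; nlinarith
  refine ⟨hA1, hA2, ?_, ?_, ?_, ?_, ?_⟩
  · apply Pool.Agent.H5SWeird.grow p m A hp hm hpm hA1 hG h1
    exact le_trans h3 (Nat.mul_le_mul_right _ hpj)
  · calc p * m ≤ p * (2 ^ (j + 1) * sp m) := Nat.mul_le_mul_left _ h3
      _ = 2 ^ (j + 1) * (p * sp m) := by ring
      _ ≤ 2 ^ (j + 1) * sp (p * m) := Nat.mul_le_mul_left _ hle2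
  · calc 2 * (p * m) = p * (2 * m) := by ring
      _ ≤ p * (2 ^ j * sp m) := Nat.mul_le_mul_left _ h4
      _ = 2 ^ j * (p * sp m) := by ring
      _ ≤ 2 ^ j * sp (p * m) := Nat.mul_le_mul_left _ hle2
  · omega
  · exact le_trans hAm (Nat.le_mul_of_pos_left _ hp.pos)

theorem not_dvd_pr {P : Finset ℕ} (hP : ∀ p ∈ P, p.Prime) {p : ℕ} (hp : p.Prime) (h : p ∉ P) :
    ¬ p ∣ pr P := by
  intro hd
  have h1 : p ∈ (pr P).primeFactors :=
    Nat.mem_primeFactors.2 ⟨hp, hd, (pr_pos hP (Finset.Subset.refl P)).ne'⟩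
  rw [primeFactors_pr hP (Finset.Subset.refl P)] at h1
  exact h h1

theorem St.growSet {j A i : ℕ} {S0 B : Finset ℕ} (hS : ∀ p ∈ S0, p.Prime) (hB : ∀ p ∈ B, p.Prime)
    (hdisj : Disjoint S0 B) (hj : j < i)
    (hBi : ∀ p ∈ B, 2 ^ i ≤ p ∧ p < 2 ^ (i + 1)) (h : St j (pr S0) A)
    (h1 : (2 ^ (i + 1) + 2) * A ≤ sp (pr S0) + 1) : St j (pr (S0 ∪ B)) A := by
  have key : ∀ B' ⊆ B, St j (pr (S0 ∪ B')) A ∧ sp (pr S0) ≤ sp (pr (S0 ∪ B')) := by
    intro B'
    induction B' using Finset.induction_on with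
    | empty => intro _; simpa using h
    | insert p B' hp ih =>
      intro hsub
      have hB'sub : B' ⊆ B := (Finset.subset_insert p B').trans hsub
      obtain ⟨ih1, ih2⟩ := ih hB'sub
      have hpB : p ∈ B := hsub (Finset.mem_insert_self p B')
      have hpp := hB p hpB
      have hall : ∀ q ∈ S0 ∪ B', q.Prime := by
        intro q hq
        rcases Finset.mem_union.1 hq with h | h
        · exact hS q h
        · exact hB q (hB'sub h)
      have hpn : p ∉ S0 ∪ B' := by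
        intro hmem
        rcases Finset.mem_union.1 hmem with h | h
        · exact Finset.disjoint_left.1 hdisj h hpB
        · exact hp h
      have hnd := not_dvd_pr hall hpp hpn
      have hpr : pr (S0 ∪ insert p B') = p * pr (S0 ∪ B') := by
        rw [Finset.union_insert]
        unfold pr
        rw [Finset.prod_insert hpn]
      rw [hpr]
      have hne : pr (S0 ∪ B') ≠ 0 := (pr_pos hall (Finset.Subset.refl _)).ne'
      constructor
      · apply ih1.grow hne hpp hnd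
        · exact le_trans (Nat.pow_le_pow_right (by norm_num) (by omega)) (hBi p hpB).1
        · have h2 : (p + 2) * A ≤ (2 ^ (i + 1) + 2) * A :=
            Nat.mul_le_mul_right _ (by have := (hBi p hpB).2; omega)
          omega
      · rw [sp_prime_mul hpp hnd]
        nlinarith [Nat.zero_le (p * sp (pr (S0 ∪ B')))]
  exact (key B (Finset.Subset.refl B)).1

theorem St.chain {j A : ℕ} {S0 : Finset ℕ} (hS : ∀ p ∈ S0, p.Prime) (hSj : ∀ p ∈ S0, 2 ^ j ≤ p)
    (h : St j (pr S0) A) : Ch (pr S0) A := by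
  obtain ⟨hA1, hA2, hG, h3, h4, h5, hAm⟩ := h
  have hpos := pr_pos hS (Finset.Subset.refl S0)
  apply chain_of_good _ A hA1 hG
  intro f hf
  obtain ⟨hfd, hflt⟩ := Nat.mem_properDivisors.1 hf
  obtain ⟨c, hc⟩ := hfd
  have hc1 : c ≠ 1 := by
    rintro rfl
    omega
  obtain ⟨q, hq, hqc⟩ := Nat.exists_prime_and_dvd hc1
  have hqS : q ∈ S0 := by
    by_contra hcon
    exact not_dvd_pr hS hq hcon (hc ▸ Dvd.dvd.mul_left hqc f)
  have hcpos : 0 < c := by
    rcases Nat.eq_zero_or_pos c with h | h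
    · rw [h] at hc; omega
    · exact h
  have hqle : q ≤ c := Nat.le_of_dvd hcpos hqc
  have h2jc : 2 ^ j ≤ c := le_trans (hSj q hqS) hqle
  have h6 : 2 ^ j * (2 * f) ≤ 2 ^ j * sp (pr S0) := by
    calc 2 ^ j * (2 * f) ≤ c * (2 * f) := Nat.mul_le_mul_right _ h2jc
      _ = 2 * pr S0 := by rw [hc]; ring
      _ ≤ _ := h4
  have h7 : 2 * f ≤ sp (pr S0) := Nat.le_of_mul_le_mul_left h6 (by positivity)
  have h8 : 2 * A ≤ (2 ^ (10 * j) + 2) * A := Nat.mul_le_mul_right _ (Nat.le_add_left _ _)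
  omega

theorem St.base {i : ℕ} {P : Finset ℕ} (hP : ∀ p ∈ P, p.Prime ∧ 2 ^ i ≤ p ∧ p < 2 ^ (i + 1))
    (hi : 100000 * (i ^ 2) ^ 6 ≤ 2 ^ i) (hi1 : 1 ≤ i) (hk : 2 ^ i ≤ P.card * i ^ 2) :
    ∃ A, St i (pr P) A := by
  have hPp : ∀ p ∈ P, p.Prime := fun p hp => (hP p hp).1
  obtain ⟨A, hA1, hA2, hG⟩ := Pool.Agent.H5SWeird.base (2 ^ i) (i ^ 2) P (by
    intro p hp
    obtain ⟨h1, h2, h3⟩ := hP p hp
    rw [pow_succ] at h3
    exact ⟨h1, h2, by omega⟩) (Nat.one_le_pow _ _ hi1) hk hi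
  set X := 2 ^ i with hX
  have hw : 1 ≤ i ^ 2 := Nat.one_le_pow _ _ hi1
  have hX0 : 100000 ≤ X := le_trans (Nat.le_mul_of_pos_right _ (by positivity)) hi
  have hk100 : 100 ≤ P.card := by
    by_contra hcon
    push Not at hcon
    have h1 : P.card * i ^ 2 ≤ 100 * i ^ 2 := Nat.mul_le_mul_right _ hcon.le
    have h2 : i ^ 2 ≤ (i ^ 2) ^ 6 := Nat.le_self_pow (by norm_num) _
    omega
  have hpos := pr_pos hPp (Finset.Subset.refl P)
  obtain ⟨p, hp⟩ : P.Nonempty := Finset.card_pos.1 (by omega)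
  have hmul : p * pr (P.erase p) = pr P := Finset.mul_prod_erase P (fun p => p) hp
  have hpos' : 0 < pr (P.erase p) := pr_pos hPp (Finset.erase_subset _ _)
  have hle : pr (P.erase p) ≤ sp (pr P) := by
    unfold sp
    apply Finset.single_le_sum (f := fun i : ℕ => i) (fun i _ => Nat.zero_le i)
    rw [Nat.mem_properDivisors]
    refine ⟨⟨p, by rw [mul_comm]; exact hmul.symm⟩, ?_⟩
    have := (hPp p hp).two_le
    nlinarith
  have hpl := (hP p hp).2.2
  refine ⟨A, hA1, ?_, hG, ?_, ?_, ?_, ?_⟩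
  · calc A ≤ X ^ 6 := hA2
      _ = 2 ^ (6 * i) := by rw [hX, ← pow_mul, mul_comm]
  · calc pr P = p * pr (P.erase p) := hmul.symm
      _ ≤ 2 ^ (i + 1) * sp (pr P) := Nat.mul_le_mul hpl.le hle
  · have h1 := recip_sum hPp
    have h2 : (P.card : ℝ) * (1 / (2 * X : ℝ)) ≤ ∑ p ∈ P, (1 / p : ℝ) := by
      rw [← nsmul_eq_mul]
      apply Finset.card_nsmul_le_sum
      intro q hq
      obtain ⟨hq1, hq2, hq3⟩ := hP q hq
      have hq4 : (q : ℝ) ≤ 2 * X := by
        have : q ≤ 2 * X := by rw [hX]; rw [pow_succ] at hq3; omega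
        exact_mod_cast this
      have hq0 : (0 : ℝ) < q := by exact_mod_cast hq1.pos
      exact one_div_le_one_div_of_le hq0 hq4
    have hXpos : (0 : ℝ) < X := by
      have : 0 < X := by omega
      exact_mod_cast this
    have hprpos : (0 : ℝ) < pr P := by exact_mod_cast hpos
    have h3 : (P.card : ℝ) * (1 / (2 * X : ℝ)) * pr P ≤ sp (pr P) :=
      le_trans (mul_le_mul_of_nonneg_right h2 hprpos.le) h1
    have h4 : (4 : ℝ) ≤ P.card := by exact_mod_cast (by omega : 4 ≤ P.card)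
    have h5 : (2 : ℝ) * pr P ≤ X * sp (pr P) := by
      have h6 : (P.card : ℝ) * pr P ≤ 2 * X * sp (pr P) := by
        have := mul_le_mul_of_nonneg_left h3 (by positivity : (0 : ℝ) ≤ 2 * X)
        calc (P.card : ℝ) * pr P = 2 * X * (P.card * (1 / (2 * X)) * pr P) := by
              field_simp
          _ ≤ _ := this
      nlinarith
    exact_mod_cast h5
  · have h1 : X ^ 17 ≤ pr (P.erase p) := by
      calc X ^ 17 ≤ X ^ (P.erase p).card :=
            Nat.pow_le_pow_right (by omega) (by rw [Finset.card_erase_of_mem hp]; omega)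
        _ ≤ _ := pr_lower (fun q hq => (hP q (Finset.mem_of_mem_erase hq)).2.1)
    have h2 : (2 ^ (10 * i) + 2) * A ≤ X ^ 17 := by
      have h3 : 2 ^ (10 * i) = X ^ 10 := by rw [hX, ← pow_mul, mul_comm]
      rw [h3]
      have h4 : X ^ 10 + 2 ≤ X ^ 11 := by
        have : X ^ 11 = X * X ^ 10 := by ring
        rw [this]
        have h5 : 2 * X ^ 10 ≤ X * X ^ 10 := Nat.mul_le_mul_right _ (by omega)
        have h6 : 2 ≤ X ^ 10 := le_trans (by omega : 2 ≤ X) (Nat.le_self_pow (by norm_num) X)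
        omega
      calc (X ^ 10 + 2) * A ≤ X ^ 11 * X ^ 6 := Nat.mul_le_mul h4 hA2
        _ = X ^ 17 := by ring
    omega
  · calc A ≤ X ^ 6 := hA2
      _ ≤ X ^ P.card := Nat.pow_le_pow_right (by omega) (by omega)
      _ ≤ pr P := pr_lower (fun q hq => (hP q hq).2.1)

end Pool.Agent.H5SWeird
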