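import Mathlib
import Pool.Agent.H5S_Weird.Proc

set_option autoImplicit false

namespace Pool.Agent.H5SWeird

open Finset

/-- primes of `Q` in the `i`-th dyadic block -/
def blk (Q : Finset ℕ) (i : ℕ) : Finset ℕ := Q.filter (fun p => Nat.log 2 p = i)

/-- primes of `Q` in dyadic blocks from `i` on -/
def ge (Q : Finset ℕ) (i : ℕ) : Finset ℕ := Q.filter (fun p => i ≤ Nat.log 2 p)

def TT (Q : Finset ℕ) (i : ℕ) : Prop :=
  ∃ S ⊆ ge Q i, ∃ A, (S = ∅ ∨ (1 ≤ A ∧ Good (pr S) A ∧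
    (2 ^ (10 * i) + 2) * A ≤ sp (pr S) + 1 ∧ A ≤ pr S)) ∧
    ∑ p ∈ ge Q i \ S, (1 / p : ℝ) ≤ 4 / 2 ^ i

def UU (Q : Finset ℕ) (i : ℕ) : Prop :=
  ∀ j, j < i → 1 ≤ j → ∀ S0 ⊆ Q, (∀ p ∈ S0, j ≤ Nat.log 2 p ∧ Nat.log 2 p < i) →
    ∀ A, St j (pr S0) A →
    ∃ S1 ⊆ ge Q i, ∃ A', 1 ≤ A' ∧ Good (pr (S0 ∪ S1)) A' ∧
      (2 ^ (10 * j) + 2) * A' ≤ sp (pr (S0 ∪ S1)) + 1 ∧ A' ≤ pr (S0 ∪ S1) ∧
      ∑ p ∈ ge Q i \ S1, (1 / p : ℝ) ≤ 4 / 2 ^ i + 2 / 2 ^ (10 * j)

theorem ge_eq (Q : Finset ℕ) (i : ℕ) : ge Q i = blk Q i ∪ ge Q (i + 1) := by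
  ext p
  simp only [ge, blk, Finset.mem_filter, Finset.mem_union]
  constructor
  · rintro ⟨h1, h2⟩
    rcases Nat.eq_or_lt_of_le h2 with h | h
    · left; exact ⟨h1, h.symm⟩
    · right; exact ⟨h1, h⟩
  · rintro (⟨h1, h2⟩ | ⟨h1, h2⟩)
    · exact ⟨h1, h2.ge⟩
    · exact ⟨h1, by omega⟩

theorem blk_disj (Q : Finset ℕ) (i : ℕ) : Disjoint (blk Q i) (ge Q (i + 1)) := by
  rw [Finset.disjoint_left]
  intro p hp hp'
  have h1 := (Finset.mem_filter.1 hp).2
  have h2 := (Finset.mem_filter.1 hp').2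
  omega

theorem pow_bounds {p i : ℕ} (hp : p.Prime) (h : Nat.log 2 p = i) :
    2 ^ i ≤ p ∧ p < 2 ^ (i + 1) := by
  subst h
  exact ⟨Nat.pow_log_le_self 2 hp.ne_zero, Nat.lt_pow_succ_log_self (by norm_num) p⟩

/-- combination of a closed cluster with the remaining part -/
theorem close {j i A A' : ℕ} {S0 S : Finset ℕ} (hS0 : ∀ p ∈ S0, p.Prime) (hS : ∀ p ∈ S, p.Prime)
    (hdisj : Disjoint S0 S) (hj : j < i) (hS0j : ∀ p ∈ S0, 2 ^ j ≤ p)
    (h : St j (pr S0) A) (h1 : sp (pr S0) + 1 < (2 ^ (i + 1) + 2) * A) (hA' : 1 ≤ A')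
    (hG' : Good (pr S) A') (h2 : (2 ^ (10 * i) + 2) * A' ≤ sp (pr S) + 1) :
    Good (pr (S0 ∪ S)) A' ∨ ∑ p ∈ S, (1 / p : ℝ) ≤ 2 / 2 ^ (10 * j) := by
  have hch := h.chain hS0 hS0j
  obtain ⟨hA1, hA2, hG, h3, h4, h5, hAm⟩ := h
  have hF : 0 < pr S0 := pr_pos hS0 (Finset.Subset.refl _)
  have hm : 0 < pr S := pr_pos hS (Finset.Subset.refl _)
  have hcop : (pr S0).Coprime (pr S) := by
    apply Nat.Coprime.prod_left
    intro p hp
    rw [Nat.Prime.coprime_iff_not_dvd (hS0 p hp)]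
    exact not_dvd_pr hS (hS0 p hp) (fun hpS => Finset.disjoint_left.1 hdisj hp hpS)
  have hFle : pr S0 ≤ 2 ^ (10 * i) := by
    have h6 : sp (pr S0) ≤ 2 ^ (i + 2) * 2 ^ (6 * j) := by
      have h7 : (2 ^ (i + 1) + 2) * A ≤ 2 ^ (i + 2) * 2 ^ (6 * j) := by
        apply Nat.mul_le_mul _ hA2
        have h8 : 2 ^ (i + 2) = 2 ^ (i + 1) + 2 ^ (i + 1) := by ring
        have h9 : 2 ≤ 2 ^ (i + 1) := by
          calc 2 = 2 ^ 1 := by norm_num
            _ ≤ 2 ^ (i + 1) := Nat.pow_le_pow_right (by norm_num) (by omega)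
        omega
      omega
    calc pr S0 ≤ 2 ^ (j + 1) * sp (pr S0) := h3
      _ ≤ 2 ^ (j + 1) * (2 ^ (i + 2) * 2 ^ (6 * j)) := Nat.mul_le_mul_left _ h6
      _ = 2 ^ (j + 1 + (i + 2) + 6 * j) := by rw [pow_add, pow_add]; ring
      _ ≤ 2 ^ (10 * i) := Nat.pow_le_pow_right (by norm_num) (by omega)
  by_cases hc : A * pr S + A' ≤ sg (pr S0) * (sp (pr S) - A') + 1
  · left
    rw [pr_union hdisj]
    apply combine (pr S0) (pr S) A' A hF.ne' hm.ne' hcop hA' hG' hch _ hc
    have h6 : (pr S0 + 2) * A' ≤ (2 ^ (10 * i) + 2) * A' := Nat.mul_le_mul_right _ (by omega)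
    omega
  · right
    push Not at hc
    set σ := sg (pr S0) with hσ
    set s := sp (pr S) with hs
    have hσ1 : (2 ^ (10 * j) + 2) * A ≤ σ := by
      have h7 := sg_eq (pr S0)
      omega
    have h10 : 1024 ≤ 2 ^ (10 * i) := by
      calc 1024 = 2 ^ 10 := by norm_num
        _ ≤ 2 ^ (10 * i) := Nat.pow_le_pow_right (by norm_num) (by omega)
    have h11 : 1026 * A' ≤ s + 1 := le_trans (Nat.mul_le_mul_right _ (by omega)) h2
    have hσpos : 1 ≤ σ := le_trans (Nat.mul_pos (by positivity) hA1) hσ1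
    -- sigma * s ≤ 2 * A * pr S
    have hkey : σ * s ≤ 2 * (A * pr S) := by
      obtain ⟨b, hb⟩ := Nat.exists_eq_add_of_le (show A' ≤ s by omega)
      have hb2 : s - A' = b := by omega
      rw [hb2] at hc
      have h12 : 4 * A' ≤ s := by omega
      have h13 : σ * (4 * A') ≤ σ * s := Nat.mul_le_mul_left _ h12
      have h14 : A' ≤ σ * A' := Nat.le_mul_of_pos_left _ hσpos
      have h15 : σ * s = σ * A' + σ * b := by rw [hb]; ring
      have h16 : σ * (4 * A') = 4 * (σ * A') := by ring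
      omega
    have hrec := recip_sum hS
    rw [← hs] at hrec
    set x := ∑ p ∈ S, (1 / p : ℝ) with hx
    have hσ2 : (2 : ℝ) ^ (10 * j) * A ≤ σ := by
      have : 2 ^ (10 * j) * A ≤ σ := by nlinarith
      exact_mod_cast this
    have hkey' : (σ : ℝ) * s ≤ 2 * (A * pr S) := by exact_mod_cast hkey
    have hx0 : 0 ≤ x := Finset.sum_nonneg (fun p _ => by positivity)
    have hApos : (0 : ℝ) < A := by exact_mod_cast hA1
    have hmpos : (0 : ℝ) < pr S := by exact_mod_cast hm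
    rw [le_div_iff₀ (by positivity)]
    have h20 : x * 2 ^ (10 * j) * (A * pr S) ≤ 2 * (A * pr S) := by
      calc x * 2 ^ (10 * j) * (A * pr S) = (2 ^ (10 * j) * A) * (x * pr S) := by ring
        _ ≤ σ * s := mul_le_mul hσ2 hrec (by positivity) (by positivity)
        _ ≤ _ := hkey'
    exact le_of_mul_le_mul_right h20 (by positivity)

theorem step {Q : Finset ℕ} (hQ : ∀ p ∈ Q, p.Prime) (i : ℕ)
    (hd : blk Q i ≠ ∅ → 1 ≤ i ∧ 100000 * (i ^ 2) ^ 6 ≤ 2 ^ i ∧ 2 ^ i ≤ (blk Q i).card * i ^ 2)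
    (hT : TT Q (i + 1)) (hU : UU Q (i + 1)) : TT Q i ∧ UU Q i := by
  have hpowR : (4 : ℝ) / 2 ^ (i + 1) ≤ 4 / 2 ^ i := by
    apply div_le_div_of_nonneg_left (by norm_num) (by positivity)
    exact pow_le_pow_right₀ (by norm_num) (by omega)
  have hblkP : ∀ p ∈ blk Q i, p.Prime ∧ 2 ^ i ≤ p ∧ p < 2 ^ (i + 1) := by
    intro p hp
    obtain ⟨h1, h2⟩ := Finset.mem_filter.1 hp
    exact ⟨hQ p h1, pow_bounds (hQ p h1) h2⟩
  have hTi : TT Q i := by
    by_cases hb : blk Q i = ∅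
    · obtain ⟨S, hS, A, h1, h2⟩ := hT
      have hge : ge Q i = ge Q (i + 1) := by rw [ge_eq, hb, Finset.empty_union]
      refine ⟨S, by rw [hge]; exact hS, A, ?_, ?_⟩
      · rcases h1 with h1 | ⟨h1, h3, h4, h5⟩
        · left; exact h1
        · right
          refine ⟨h1, h3, le_trans ?_ h4, h5⟩
          apply Nat.mul_le_mul_right
          have := Nat.pow_le_pow_right (show 0 < 2 by norm_num) (show 10 * i ≤ 10 * (i + 1) by omega)
          omega
      · rw [hge]
        exact le_trans h2 hpowR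
    · obtain ⟨hi1, hi2, hi3⟩ := hd hb
      obtain ⟨A, hA⟩ := St.base hblkP hi2 hi1 hi3
      obtain ⟨S1, hS1, A', hA'1, hG, h3, h5, h4⟩ := hU i (by omega) hi1 (blk Q i)
        (Finset.filter_subset _ _) (by
          intro p hp
          have := (Finset.mem_filter.1 hp).2
          omega) A hA
      refine ⟨blk Q i ∪ S1, ?_, A', Or.inr ⟨hA'1, hG, h3, h5⟩, ?_⟩
      · rw [ge_eq]; exact Finset.union_subset_union_right hS1
      · have hsub : ge Q i \ (blk Q i ∪ S1) ⊆ ge Q (i + 1) \ S1 := by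
          intro x hx
          rw [Finset.mem_sdiff, ge_eq, Finset.mem_union, Finset.mem_union] at hx
          rw [Finset.mem_sdiff]
          tauto
        calc ∑ p ∈ ge Q i \ (blk Q i ∪ S1), (1 / p : ℝ) ≤ ∑ p ∈ ge Q (i + 1) \ S1, (1 / p : ℝ) :=
              Finset.sum_le_sum_of_subset_of_nonneg hsub (fun p _ _ => by positivity)
          _ ≤ 4 / 2 ^ (i + 1) + 2 / 2 ^ (10 * i) := h4
          _ ≤ 4 / 2 ^ (i + 1) + 2 / 2 ^ i := by
              gcongr
              · norm_num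
              · omega
          _ = 4 / 2 ^ i := by
              rw [pow_succ]
              field_simp
              norm_num
  refine ⟨hTi, ?_⟩
  intro j hj hj1 S0 hS0Q hS0 A hSt
  have hS0P : ∀ p ∈ S0, p.Prime := fun p hp => hQ p (hS0Q hp)
  have hgeP : ∀ p ∈ ge Q i, p.Prime := fun p hp => hQ p (Finset.mem_filter.1 hp).1
  have hdisjge : Disjoint S0 (ge Q i) := by
    rw [Finset.disjoint_left]
    intro p hp hp'
    have h1 := (hS0 p hp).2
    have h2 := (Finset.mem_filter.1 hp').2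
    omega
  by_cases hb : blk Q i = ∅
  · obtain ⟨S1, hS1, A', h1, h2, h3, h5, h4⟩ := hU j (by omega) hj1 S0 hS0Q (by
      intro p hp
      have := hS0 p hp
      omega) A hSt
    have hge : ge Q i = ge Q (i + 1) := by rw [ge_eq, hb, Finset.empty_union]
    refine ⟨S1, by rw [hge]; exact hS1, A', h1, h2, h3, h5, ?_⟩
    rw [hge]
    linarith
  by_cases hgrow : (2 ^ (i + 1) + 2) * A ≤ sp (pr S0) + 1
  · have hdisjb : Disjoint S0 (blk Q i) := by
      apply hdisjge.mono_right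
      rw [ge_eq]; exact Finset.subset_union_left
    have hSt' := St.growSet (i := i) hS0P (fun p hp => (hblkP p hp).1) hdisjb hj
      (fun p hp => (hblkP p hp).2) hSt hgrow
    obtain ⟨S1, hS1, A', h1, h2, h3, h5, h4⟩ := hU j (by omega) hj1 (S0 ∪ blk Q i)
      (Finset.union_subset hS0Q (Finset.filter_subset _ _)) (by
        intro p hp
        rcases Finset.mem_union.1 hp with h | h
        · have := hS0 p h
          omega
        · have := (Finset.mem_filter.1 h).2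
          omega) A hSt'
    rw [Finset.union_assoc] at h2 h3 h5
    refine ⟨blk Q i ∪ S1, ?_, A', h1, h2, h3, h5, ?_⟩
    · rw [ge_eq]; exact Finset.union_subset_union_right hS1
    · have hsub : ge Q i \ (blk Q i ∪ S1) ⊆ ge Q (i + 1) \ S1 := by
        intro x hx
        rw [Finset.mem_sdiff, ge_eq, Finset.mem_union, Finset.mem_union] at hx
        rw [Finset.mem_sdiff]
        tauto
      calc ∑ p ∈ ge Q i \ (blk Q i ∪ S1), (1 / p : ℝ) ≤ ∑ p ∈ ge Q (i + 1) \ S1, (1 / p : ℝ) :=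
            Finset.sum_le_sum_of_subset_of_nonneg hsub (fun p _ _ => by positivity)
        _ ≤ 4 / 2 ^ (i + 1) + 2 / 2 ^ (10 * j) := h4
        _ ≤ _ := by linarith
  · push Not at hgrow
    obtain ⟨S, hS, A1, h1, h2⟩ := hTi
    have hjpos : (0 : ℝ) ≤ 2 / 2 ^ (10 * j) := by positivity
    obtain ⟨hA1, hA2, hG, h3, h4, h5, hAm⟩ := id hSt
    rcases h1 with h1 | ⟨h6, h7, h8, h8'⟩
    · refine ⟨∅, Finset.empty_subset _, A, hA1, ?_, ?_, ?_, ?_⟩
      · rw [Finset.union_empty]; exact hG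
      · rw [Finset.union_empty]; exact h5
      · rw [Finset.union_empty]; exact hAm
      · rw [h1] at h2
        linarith
    · have hSP : ∀ p ∈ S, p.Prime := fun p hp => hgeP p (hS hp)
      have hdisj : Disjoint S0 S := hdisjge.mono_right hS
      rcases close hS0P hSP hdisj hj (by
          intro p hp
          exact le_trans (Nat.pow_le_pow_right (by norm_num) (hS0 p hp).1)
            (pow_bounds (hS0P p hp) rfl).1) hSt hgrow h6 h7 h8 with hc | hc
      · refine ⟨S, hS, A1, h6, hc, ?_, ?_, ?_⟩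
        · have h9 : (2 ^ (10 * j) + 2) * A1 ≤ (2 ^ (10 * i) + 2) * A1 := by
            apply Nat.mul_le_mul_right
            have := Nat.pow_le_pow_right (show 0 < 2 by norm_num) (show 10 * j ≤ 10 * i by omega)
            omega
          have h10 : sp (pr S) ≤ sp (pr (S0 ∪ S)) := by
            have hcop : (pr S0).Coprime (pr S) := by
              apply Nat.Coprime.prod_left
              intro p hp
              rw [Nat.Prime.coprime_iff_not_dvd (hS0P p hp)]
              exact not_dvd_pr hSP (hS0P p hp) (fun hpS => Finset.disjoint_left.1 hdisj hp hpS)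
            rw [pr_union hdisj, sp_mul hcop]
            have h11 : 1 ≤ sg (pr S0) := by
              rw [sg_eq]
              have := pr_pos hS0P (Finset.Subset.refl S0)
              omega
            nlinarith [Nat.zero_le (pr S * sp (pr S0))]
          omega
        · rw [pr_union hdisj]
          exact le_trans h8' (Nat.le_mul_of_pos_left _ (pr_pos hS0P (Finset.Subset.refl S0)))
        · linarith
      · refine ⟨∅, Finset.empty_subset _, A, hA1, ?_, ?_, ?_, ?_⟩
        · rw [Finset.union_empty]; exact hG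
        · rw [Finset.union_empty]; exact h5
        · rw [Finset.union_empty]; exact hAm
        · rw [Finset.sdiff_empty]
          have h9 := Finset.sum_sdiff (f := fun p : ℕ => (1 / p : ℝ)) hS
          rw [← h9]
          linarith

theorem mainInd {Q : Finset ℕ} (hQ : ∀ p ∈ Q, p.Prime)
    (hd : ∀ i, blk Q i ≠ ∅ →
      1 ≤ i ∧ 100000 * (i ^ 2) ^ 6 ≤ 2 ^ i ∧ 2 ^ i ≤ (blk Q i).card * i ^ 2) :
    ∀ i, TT Q i ∧ UU Q i := by
  obtain ⟨N, hN⟩ : ∃ N, ∀ i, N ≤ i → ge Q i = ∅ := by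
    refine ⟨∑ p ∈ Q, Nat.log 2 p + 1, ?_⟩
    intro i hi
    rw [Finset.eq_empty_iff_forall_notMem]
    intro p hp
    obtain ⟨h1, h2⟩ := Finset.mem_filter.1 hp
    have := Finset.single_le_sum (f := fun p => Nat.log 2 p) (fun p _ => Nat.zero_le _) h1
    omega
  have hbase : ∀ i, N ≤ i → TT Q i ∧ UU Q i := by
    intro i hi
    have hemp := hN i hi
    constructor
    · refine ⟨∅, Finset.empty_subset _, 0, Or.inl rfl, ?_⟩
      rw [hemp, Finset.empty_sdiff, Finset.sum_empty]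
      positivity
    · intro j hj hj1 S0 hS0Q hS0 A hSt
      obtain ⟨hA1, hA2, hG, h3, h4, h5, hAm⟩ := hSt
      refine ⟨∅, Finset.empty_subset _, A, hA1, ?_, ?_, ?_, ?_⟩
      · rw [Finset.union_empty]; exact hG
      · rw [Finset.union_empty]; exact h5
      · rw [Finset.union_empty]; exact hAm
      · rw [hemp, Finset.empty_sdiff, Finset.sum_empty]
        positivity
  have hind : ∀ d i, i + d = N → TT Q i ∧ UU Q i := by
    intro d
    induction d with
    | zero => intro i hi; exact hbase i (by omega)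
    | succ d ih =>
      intro i hi
      obtain ⟨h1, h2⟩ := ih (i + 1) (by omega)
      exact step hQ i (hd i) h1 h2
  intro i
  by_cases h : N ≤ i
  · exact hbase i h
  · exact hind (N - i) i (by omega)

/-- If no product of a subset of `Q` is a sum of distinct proper divisors, then the sum of
reciprocals of `Q` is bounded. -/
theorem dense_bound {Q : Finset ℕ} (hQ : ∀ p ∈ Q, p.Prime)
    (hd : ∀ i, blk Q i ≠ ∅ →
      1 ≤ i ∧ 100000 * (i ^ 2) ^ 6 ≤ 2 ^ i ∧ 2 ^ i ≤ (blk Q i).card * i ^ 2)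
    (hno : ∀ S ⊆ Q, ¬ Rp (fun i : ℕ => i) (pr S).properDivisors (pr S)) :
    ∑ p ∈ Q, (1 / p : ℝ) ≤ 6 := by
  obtain ⟨S, hS, A, h1, h2⟩ := (mainInd hQ hd 0).1
  have hge : ge Q 0 = Q := by
    unfold ge
    simp
  rw [hge] at hS h2
  have hSP : ∀ p ∈ S, p.Prime := fun p hp => hQ p (hS hp)
  have hS2 : ∑ p ∈ S, (1 / p : ℝ) ≤ 2 := by
    rcases h1 with h1 | ⟨h3, h4, h5, h10⟩
    · rw [h1]; simp
    · have hpos := pr_pos hSP (Finset.Subset.refl S)
      by_contra hcon
      push Not at hcon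
      have hrec := recip_sum hSP
      have hposR : (0 : ℝ) < pr S := by exact_mod_cast hpos
      have h6 : (2 : ℝ) * pr S < sp (pr S) :=
        lt_of_lt_of_le (mul_lt_mul_of_pos_right hcon hposR) hrec
      have h7 : 2 * pr S < sp (pr S) := by exact_mod_cast h6
      exact hno S hS (h4 (pr S) h10 (by omega))
  have h9 := Finset.sum_sdiff (f := fun p : ℕ => (1 / p : ℝ)) hS
  rw [← h9]
  have h2' : ∑ p ∈ Q \ S, (1 / p : ℝ) ≤ 4 := by
    simpa using h2
  linarith

end Pool.Agent.H5SWeird
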