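import Mathlib
import Pool.Agent.H5S_Weird.Main

set_option autoImplicit false

namespace Pool.Agent.H5SWeird

open Finset

theorem sg_prime_pow {p k : ℕ} (hp : p.Prime) :
    (sg (p ^ k) : ℝ) ≤ (p ^ k : ℕ) * Real.exp (2 * (1 / p)) := by
  have h1 : sg (p ^ k) = ∑ j ∈ Finset.range (k + 1), p ^ j := by
    unfold sg
    rw [Nat.sum_divisors_prime_pow hp]
  have hp2 : (2 : ℝ) ≤ p := by exact_mod_cast hp.two_le
  have h2 : (p - 1 : ℝ) * sg (p ^ k) ≤ p * (p ^ k : ℕ) := by
    rw [h1]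
    push_cast
    have := mul_geom_sum (p : ℝ) (k + 1)
    rw [this, pow_succ]
    linarith
  have h3 : (1 : ℝ) + 2 * (1 / p) ≤ Real.exp (2 * (1 / p)) := by
    have := Real.add_one_le_exp (2 * (1 / p : ℝ))
    linarith
  have h4 : (p : ℝ) ≤ (p - 1) * (1 + 2 * (1 / p)) := by
    have hp0 : (p : ℝ) ≠ 0 := by positivity
    have : (p - 1 : ℝ) * (1 + 2 * (1 / p)) = p + 1 - 2 / p := by
      field_simp
      ring
    rw [this]
    have : (2 : ℝ) / p ≤ 1 := by
      rw [div_le_one (by positivity)]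
      exact hp2
    linarith
  have hpk : (0 : ℝ) ≤ (p ^ k : ℕ) := by positivity
  have h5 : (p - 1 : ℝ) * sg (p ^ k) ≤ (p - 1) * ((p ^ k : ℕ) * Real.exp (2 * (1 / p))) := by
    calc (p - 1 : ℝ) * sg (p ^ k) ≤ p * (p ^ k : ℕ) := h2
      _ ≤ (p - 1) * (1 + 2 * (1 / p)) * (p ^ k : ℕ) := mul_le_mul_of_nonneg_right h4 hpk
      _ ≤ (p - 1) * Real.exp (2 * (1 / p)) * (p ^ k : ℕ) := by
          apply mul_le_mul_of_nonneg_right _ hpk
          apply mul_le_mul_of_nonneg_left h3
          linarith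
      _ = _ := by ring
  exact le_of_mul_le_mul_left h5 (by linarith)

theorem sigma_bound (n : ℕ) :
    (sg n : ℝ) ≤ n * Real.exp (2 * ∑ p ∈ n.primeFactors, (1 / p : ℝ)) := by
  induction n using Nat.recOnPosPrimePosCoprime with
  | prime_pow p k hp hk =>
    rw [Nat.primeFactors_prime_pow hk.ne' hp, Finset.sum_singleton]
    exact sg_prime_pow hp
  | zero => simp [sg]
  | one => simp [sg]
  | coprime a b ha hb hab iha ihb =>
    rw [sg_mul hab, hab.primeFactors_mul, Finset.sum_union hab.disjoint_primeFactors, mul_add,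
      Real.exp_add]
    push_cast
    calc (sg a : ℝ) * sg b ≤ (a * Real.exp (2 * ∑ p ∈ a.primeFactors, (1 / p : ℝ))) *
          (b * Real.exp (2 * ∑ p ∈ b.primeFactors, (1 / p : ℝ))) := by
          apply mul_le_mul iha ihb (by positivity) (by positivity)
      _ = _ := by ring

theorem big (i : ℕ) (hi : 100 ≤ i) : 100000 * (i ^ 2) ^ 6 ≤ 2 ^ i := by
  rw [← pow_mul]
  induction i, hi using Nat.le_induction with
  | base => norm_num
  | succ i hi ih =>
    have h1 : (100 * (i + 1)) ^ 12 ≤ (101 * i) ^ 12 := Nat.pow_le_pow_left (by omega) 12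
    have h2 : (i + 1) ^ 12 ≤ 2 * i ^ 12 := by
      rw [mul_pow, mul_pow] at h1
      have h3 : 101 ^ 12 * i ^ 12 ≤ 100 ^ 12 * (2 * i ^ 12) := by
        rw [← mul_assoc]
        exact Nat.mul_le_mul_right _ (by norm_num)
      exact Nat.le_of_mul_le_mul_left (h1.trans h3) (by positivity)
    have h4 : 2 ^ (i + 1) = 2 * 2 ^ i := by ring
    have h5 : i ^ (2 * 6) = i ^ 12 := by norm_num
    have h6 : (i + 1) ^ (2 * 6) = (i + 1) ^ 12 := by norm_num
    rw [h5] at ih
    rw [h6, h4]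
    omega

theorem sparse_sum (N : ℕ) : ∑ i ∈ Finset.Icc 1 N, (1 / (i : ℝ) ^ 2) ≤ 2 := by
  have h : ∀ N : ℕ, 1 ≤ N → ∑ i ∈ Finset.Icc 1 N, (1 / (i : ℝ) ^ 2) ≤ 2 - 1 / (N : ℝ) := by
    intro N hN
    induction N, hN using Nat.le_induction with
    | base => norm_num
    | succ N hN ih =>
      rw [Finset.sum_Icc_succ_top (by omega)]
      have hN0 : (0 : ℝ) < N := by exact_mod_cast hN
      have : (1 : ℝ) / ((N + 1 : ℕ) : ℝ) ^ 2 ≤ 1 / N - 1 / ((N + 1 : ℕ) : ℝ) := by
        push_cast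
        rw [div_sub_div _ _ (by positivity) (by positivity),
          div_le_div_iff₀ (by positivity) (by positivity)]
        nlinarith
      linarith
  rcases Nat.eq_zero_or_pos N with h0 | h0
  · subst h0; simp
  · have h1 := h N h0
    have : (0 : ℝ) ≤ 1 / (N : ℝ) := by positivity
    linarith

/-- The sum of reciprocals of the prime factors is bounded. -/
theorem recip_bound (n : ℕ) (hn : 0 < n) (hw : ¬ ∃ s ⊆ n.properDivisors, ∑ i ∈ s, i = n) :
    ∑ p ∈ n.primeFactors, (1 / p : ℝ) ≤ 2 ^ 100 + 8 := by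
  -- no product of a set of prime factors is representable
  have hno : ∀ S ⊆ n.primeFactors, ¬ Rp (fun i : ℕ => i) (pr S).properDivisors (pr S) := by
    intro S hS h
    obtain ⟨s, hs, hsum⟩ := h
    have hSP : ∀ p ∈ S, p.Prime := fun p hp => Nat.prime_of_mem_primeFactors (hS hp)
    have hpos := pr_pos hSP (Finset.Subset.refl S)
    have hdvd : pr S ∣ n := by
      unfold pr
      exact (Finset.prod_dvd_prod_of_subset S _ (fun p => p) hS).trans (Nat.prod_primeFactors_dvd n)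
    obtain ⟨c, hc⟩ := hdvd
    have hcpos : 0 < c := by
      rcases Nat.eq_zero_or_pos c with h | h
      · rw [h] at hc; omega
      · exact h
    apply hw
    refine ⟨s.image (fun d => d * c), ?_, ?_⟩
    · intro x hx
      obtain ⟨d, hd, rfl⟩ := Finset.mem_image.1 hx
      obtain ⟨h1, h2⟩ := Nat.mem_properDivisors.1 (hs hd)
      rw [Nat.mem_properDivisors, hc]
      exact ⟨Nat.mul_dvd_mul h1 dvd_rfl, Nat.mul_lt_mul_of_pos_right h2 hcpos⟩
    · rw [Finset.sum_image]
      · rw [← Finset.sum_mul, hc]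
        have : ∑ i ∈ s, i = pr S := hsum
        rw [this]
      · intro a _ b _ hab
        exact Nat.eq_of_mul_eq_mul_right hcpos hab
  set P := n.primeFactors with hP
  have hPp : ∀ p ∈ P, p.Prime := fun p hp => Nat.prime_of_mem_primeFactors hp
  set Q := P.filter (fun p => 100 ≤ Nat.log 2 p ∧
    2 ^ (Nat.log 2 p) ≤ (blk P (Nat.log 2 p)).card * (Nat.log 2 p) ^ 2) with hQ
  have hQP : Q ⊆ P := Finset.filter_subset _ _
  have h1 : ∑ p ∈ Q, (1 / p : ℝ) ≤ 6 := by
    apply dense_bound (fun p hp => hPp p (hQP hp)) _ (fun S hS => hno S (hS.trans hQP))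
    intro i hi
    obtain ⟨p, hp⟩ := Finset.nonempty_iff_ne_empty.2 hi
    obtain ⟨hp1, hp2⟩ := Finset.mem_filter.1 hp
    obtain ⟨hp3, hp4, hp5⟩ := Finset.mem_filter.1 hp1
    rw [hp2] at hp4 hp5
    have hblk : blk Q i = blk P i := by
      ext q
      constructor
      · intro hq
        obtain ⟨hq1, hq2⟩ := Finset.mem_filter.1 hq
        exact Finset.mem_filter.2 ⟨hQP hq1, hq2⟩
      · intro hq
        obtain ⟨hq1, hq2⟩ := Finset.mem_filter.1 hq
        refine Finset.mem_filter.2 ⟨Finset.mem_filter.2 ⟨hq1, ?_⟩, hq2⟩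
        rw [hq2]
        exact ⟨hp4, hp5⟩
    rw [hblk]
    exact ⟨by omega, big i hp4, hp5⟩
  -- small primes
  set R1 := P.filter (fun p => Nat.log 2 p < 100) with hR1
  have h2 : ∑ p ∈ R1, (1 / p : ℝ) ≤ 2 ^ 100 := by
    have hsub : R1 ⊆ Finset.range (2 ^ 100) := by
      intro p hp
      obtain ⟨hp1, hp2⟩ := Finset.mem_filter.1 hp
      rw [Finset.mem_range]
      exact Nat.lt_pow_of_log_lt (by norm_num) hp2
    have hcard : R1.card ≤ 2 ^ 100 := by
      have := Finset.card_le_card hsub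
      rwa [Finset.card_range] at this
    calc ∑ p ∈ R1, (1 / p : ℝ) ≤ R1.card • (1 : ℝ) := by
          apply Finset.sum_le_card_nsmul
          intro p hp
          have hp1 := (hPp p (Finset.mem_filter.1 hp).1).one_le
          rw [div_le_one (by positivity)]
          exact_mod_cast hp1
      _ = (R1.card : ℝ) := by simp
      _ ≤ ((2 ^ 100 : ℕ) : ℝ) := by exact_mod_cast hcard
      _ = 2 ^ 100 := by norm_num
  -- sparse blocks
  set R2 := P.filter (fun p => 100 ≤ Nat.log 2 p ∧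
    (blk P (Nat.log 2 p)).card * (Nat.log 2 p) ^ 2 < 2 ^ (Nat.log 2 p)) with hR2
  have h3 : ∑ p ∈ R2, (1 / p : ℝ) ≤ 2 := by
    obtain ⟨N, hN⟩ : ∃ N, ∀ p ∈ R2, Nat.log 2 p ≤ N := by
      refine ⟨∑ p ∈ R2, Nat.log 2 p, ?_⟩
      intro p hp
      exact Finset.single_le_sum (f := fun p => Nat.log 2 p) (fun p _ => Nat.zero_le _) hp
    have hmaps : ∀ p ∈ R2, Nat.log 2 p ∈ Finset.Icc 1 N := by
      intro p hp
      rw [Finset.mem_Icc]
      have h4 := (Finset.mem_filter.1 hp).2.1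
      exact ⟨by omega, hN p hp⟩
    rw [← Finset.sum_fiberwise_of_maps_to hmaps]
    refine le_trans (Finset.sum_le_sum ?_) (sparse_sum N)
    intro i hi
    rw [Finset.mem_Icc] at hi
    have hi0 : (0 : ℝ) < i := by exact_mod_cast hi.1
    by_cases hemp : (R2.filter (fun p => Nat.log 2 p = i)) = ∅
    · rw [hemp]
      simp
    · obtain ⟨p, hp⟩ := Finset.nonempty_iff_ne_empty.2 hemp
      obtain ⟨hp1, hp2⟩ := Finset.mem_filter.1 hp
      obtain ⟨hp3, hp4, hp5⟩ := Finset.mem_filter.1 hp1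
      rw [hp2] at hp5
      have hsub : R2.filter (fun p => Nat.log 2 p = i) ⊆ blk P i := by
        intro q hq
        obtain ⟨hq1, hq2⟩ := Finset.mem_filter.1 hq
        exact Finset.mem_filter.2 ⟨(Finset.mem_filter.1 hq1).1, hq2⟩
      have hcard := Finset.card_le_card hsub
      calc ∑ q ∈ R2.filter (fun p => Nat.log 2 p = i), (1 / q : ℝ)
          ≤ (R2.filter (fun p => Nat.log 2 p = i)).card • (1 / 2 ^ i : ℝ) := by
            apply Finset.sum_le_card_nsmul
            intro q hq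
            obtain ⟨hq1, hq2⟩ := Finset.mem_filter.1 hq
            have hqP := hPp q (Finset.mem_filter.1 hq1).1
            have := (pow_bounds hqP hq2).1
            apply one_div_le_one_div_of_le (by positivity)
            exact_mod_cast this
        _ ≤ ((blk P i).card : ℝ) * (1 / 2 ^ i) := by
            rw [nsmul_eq_mul]
            apply mul_le_mul_of_nonneg_right _ (by positivity)
            exact_mod_cast hcard
        _ ≤ 1 / (i : ℝ) ^ 2 := by
            rw [mul_one_div, div_le_div_iff₀ (by positivity) (by positivity), one_mul]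
            exact_mod_cast hp5.le
  have hcover : P ⊆ Q ∪ (R1 ∪ R2) := by
    intro p hp
    rw [Finset.mem_union, Finset.mem_union, hQ, hR1, hR2, Finset.mem_filter, Finset.mem_filter,
      Finset.mem_filter]
    by_cases h4 : Nat.log 2 p < 100
    · right; left; exact ⟨hp, h4⟩
    · by_cases h5 : 2 ^ (Nat.log 2 p) ≤ (blk P (Nat.log 2 p)).card * (Nat.log 2 p) ^ 2
      · left; exact ⟨hp, by omega, h5⟩
      · right; right; exact ⟨hp, by omega, by omega⟩
  have hnn : ∀ p ∈ Q ∪ (R1 ∪ R2), (0 : ℝ) ≤ 1 / p := fun p _ => by positivity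
  have hun : ∀ S T : Finset ℕ, ∑ p ∈ S ∪ T, (1 / p : ℝ) ≤ ∑ p ∈ S, (1 / p : ℝ) + ∑ p ∈ T, (1 / p : ℝ) := by
    intro S T
    have := Finset.sum_union_inter (s₁ := S) (s₂ := T) (f := fun i : ℕ => (1 / i : ℝ))
    have h5 : (0 : ℝ) ≤ ∑ p ∈ S ∩ T, (1 / p : ℝ) := Finset.sum_nonneg (fun p _ => by positivity)
    linarith
  calc ∑ p ∈ P, (1 / p : ℝ) ≤ ∑ p ∈ Q ∪ (R1 ∪ R2), (1 / p : ℝ) :=
        Finset.sum_le_sum_of_subset_of_nonneg hcover (fun p _ _ => by positivity)
    _ ≤ _ := by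
        have h6 := hun Q (R1 ∪ R2)
        have h7 := hun R1 R2
        linarith

end Pool.Agent.H5SWeird
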